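import Mathlib

/-!
Entire functions of exponential growth with only real zeros: monotonicity of the modulus on
vertical lines.
-/

open Complex Metric Set

namespace Pool.Agent.W18.LP

/-- Dividing out all the zeros in the disc of radius `R`. -/
theorem factor {R : ℝ} (hR : 0 < R) : ∀ (n : ℕ) (M : ℝ) (f : ℂ → ℂ), Differentiable ℂ f →
    f 0 ≠ 0 → (∀ z, ‖z‖ = 3 * R → ‖f z‖ ≤ M) → M < 2 ^ n * ‖f 0‖ →
    (∀ z, f z = 0 → z.im = 0) →
    ∃ (L : List ℝ) (g : ℂ → ℂ), Differentiable ℂ g ∧ (∀ z, ‖z‖ ≤ R → g z ≠ 0) ∧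
      (∀ z : ℂ, f z = g z * (L.map (fun x : ℝ => 1 - z / (x : ℂ))).prod) ∧
      (∀ z, ‖z‖ = 3 * R → ‖g z‖ ≤ M) := by
  intro n
  induction n with
  | zero =>
    intro M f hf h0 hM hlt _
    exfalso
    have h1 : ‖f 0‖ ≤ M := by
      apply Complex.norm_le_of_forall_mem_frontier_norm_le (U := ball (0 : ℂ) (3 * R))
        isBounded_ball (hf.diffContOnCl) ?_ (subset_closure (mem_ball_self (by positivity)))
      intro z hz
      apply hM
      have := frontier_ball_subset_sphere hz
      simpa using this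
    simp at hlt
    linarith
  | succ n ih =>
    intro M f hf h0 hM hlt hreal
    by_cases hz : ∃ z, ‖z‖ ≤ R ∧ f z = 0
    · obtain ⟨w, hwR, hw⟩ := hz
      have hwim := hreal w hw
      obtain ⟨x, rfl⟩ : ∃ x : ℝ, w = (x : ℂ) := ⟨w.re, by apply Complex.ext <;> simp [hwim]⟩
      have hx : x ≠ 0 := by
        rintro rfl
        exact h0 (by simpa using hw)
      have hxc : (x : ℂ) ≠ 0 := by exact_mod_cast hx
      set d : ℂ → ℂ := dslope f x with hd
      have hdd : Differentiable ℂ d := by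
        have := (Complex.differentiableOn_dslope (s := univ) (c := (x : ℂ)) (f := f)
          Filter.univ_mem).2 hf.differentiableOn
        exact differentiableOn_univ.1 this
      have hfac : ∀ z, f z = (z - x) * d z := by
        intro z
        have := sub_smul_dslope f (x : ℂ) z
        rw [hw, sub_zero, smul_eq_mul] at this
        exact this.symm
      set f1 : ℂ → ℂ := fun z => -(x : ℂ) * d z with hf1
      have hf1f : ∀ z, f z = f1 z * (1 - z / x) := by
        intro z
        rw [hfac z, hf1]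
        field_simp
        ring
      have hf1d : Differentiable ℂ f1 := hdd.const_mul _
      have hf10 : f1 0 = f 0 := by
        rw [hf1f 0]; simp
      have hM1 : ∀ z, ‖z‖ = 3 * R → ‖f1 z‖ ≤ M / 2 := by
        intro z hz
        have h2 : 2 ≤ ‖1 - z / x‖ := by
          have h3 : 3 ≤ ‖z / (x : ℂ)‖ := by
            rw [norm_div, le_div_iff₀ (norm_pos_iff.2 hxc), hz]
            nlinarith
          have h4 : ‖z / (x : ℂ)‖ - ‖(1 : ℂ)‖ ≤ ‖z / (x : ℂ) - 1‖ := norm_sub_norm_le _ _
          rw [norm_one, norm_sub_rev] at h4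
          linarith
        have h5 := hM z hz
        rw [hf1f z, norm_mul] at h5
        nlinarith [norm_nonneg (f1 z)]
      have hlt1 : M / 2 < 2 ^ n * ‖f1 0‖ := by
        rw [hf10]
        rw [pow_succ] at hlt
        linarith
      have hreal1 : ∀ z, f1 z = 0 → z.im = 0 := by
        intro z hz
        apply hreal
        rw [hf1f z, hz, zero_mul]
      obtain ⟨L, g, hg, hgR, hgf, hgM⟩ := ih (M / 2) f1 hf1d (by rwa [hf10]) hM1 hlt1 hreal1
      refine ⟨x :: L, g, hg, hgR, ?_, ?_⟩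
      · intro z
        rw [hf1f z, hgf z, List.map_cons, List.prod_cons]
        ring
      · intro z hz
        have h6 := hgM z hz
        have h7 : 0 ≤ M / 2 := (norm_nonneg _).trans h6
        linarith
    · push Not at hz
      exact ⟨[], f, hf, hz, by simp, hM⟩


/-- A zero-free even function in a disc with bounded modulus is almost constant near the centre. -/
theorem even_bound {G : ℂ → ℂ} {R B : ℝ} (hR : 0 < R) (hG : DifferentiableOn ℂ G (ball 0 R))
    (hne : ∀ z, ‖z‖ < R → G z ≠ 0) (heven : ∀ z, G (-z) = G z) (hB : 0 < B)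
    (hbd : ∀ z, ‖z‖ < R → ‖G z‖ ≤ ‖G 0‖ * Real.exp B) {z : ℂ} (hz : ‖z‖ < R / 2) :
    ∃ e : ℂ, G z = G 0 * exp e ∧ ‖e‖ ≤ 2 * B * (‖z‖ / (R / 2)) ^ 2 := by
  have hG0 : G 0 ≠ 0 := hne 0 (by simpa using hR)
  have hq : DifferentiableOn ℂ (fun z => deriv G z / G z) (ball 0 R) := by
    apply DifferentiableOn.div _ hG
    · intro z hz; exact hne z (by simpa using hz)
    · exact hG.deriv isOpen_ball
  obtain ⟨g0, hg0⟩ := hq.isExactOn_ball
  set l : ℂ → ℂ := fun z => g0 z - g0 0 with hl
  have hld : ∀ w ∈ ball (0 : ℂ) R, HasDerivAt l (deriv G w / G w) w := fun w hw =>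
    (hg0 w hw).sub_const _
  have hl0 : l 0 = 0 := by simp [hl]
  have hGd : ∀ w ∈ ball (0 : ℂ) R, HasDerivAt G (deriv G w) w := fun w hw =>
    ((hG w hw).differentiableAt (isOpen_ball.mem_nhds hw)).hasDerivAt
  have hconst : ∀ w ∈ ball (0 : ℂ) R, G w * exp (-l w) = G 0 := by
    intro w hw
    have hHd : ∀ w ∈ ball (0 : ℂ) R, HasDerivAt (fun w => G w * exp (-l w)) 0 w := by
      intro w hw
      have h1 := (hGd w hw).mul ((hld w hw).neg.cexp)
      have h0 := hne w (by simpa using hw)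
      have h2 : deriv G w * exp (-l w) + G w * (exp (-l w) * -(deriv G w / G w)) = 0 := by
        rw [show G w * (exp (-l w) * -(deriv G w / G w)) =
          -(exp (-l w) * deriv G w) * (G w / G w) by ring, div_self h0]
        ring
      exact HasDerivAt.congr_deriv h1 h2
    have h2 := isOpen_ball.is_const_of_deriv_eq_zero (𝕜 := ℂ) (f := fun w => G w * exp (-l w))
      (convex_ball (0 : ℂ) R).isPreconnected
      (fun w hw => (hHd w hw).differentiableAt.differentiableWithinAt)
      (fun w hw => (hHd w hw).deriv) hw (mem_ball_self hR)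
    simpa [hl0] using h2
  have hGl : ∀ w ∈ ball (0 : ℂ) R, G w = G 0 * exp (l w) := by
    intro w hw
    rw [← hconst w hw, mul_assoc, ← Complex.exp_add]
    simp
  have hre : MapsTo l (ball 0 R) {z | z.re ≤ B} := by
    intro w hw
    have h1 := hbd w (by simpa using hw)
    rw [hGl w hw, norm_mul, Complex.norm_exp] at h1
    have h2 : Real.exp (l w).re ≤ Real.exp B :=
      le_of_mul_le_mul_left h1 (norm_pos_iff.2 hG0)
    exact Real.exp_le_exp.1 h2
  have hldiff : DifferentiableOn ℂ l (ball 0 R) := fun w hw =>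
    (hld w hw).differentiableAt.differentiableWithinAt
  have hbc : ∀ w, ‖w‖ < R / 2 → ‖l w‖ ≤ 2 * B := by
    intro w hw
    have h1 := Complex.borelCaratheodory_zero hB hldiff hre hR
      (z := w) (by simp; linarith) hl0
    refine h1.trans ?_
    rw [div_le_iff₀ (by linarith)]
    nlinarith
  have hd0 : deriv G 0 = 0 := by
    have h1 : deriv (fun z => G (-z)) 0 = -deriv G (-0) := deriv_comp_neg G 0
    have h2 : (fun z => G (-z)) = G := funext heven
    rw [h2, neg_zero] at h1
    have h3 : deriv G 0 + deriv G 0 = 0 := by linear_combination h1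
    have h4 : (2 : ℂ) * deriv G 0 = 0 := by linear_combination h3
    simpa using h4
  have hl' : HasDerivAt l 0 0 := by
    have := hld 0 (mem_ball_self hR)
    simpa [hd0] using this
  have ho : (l · - l 0) =o[nhds 0] (fun w : ℂ ↦ ‖w - 0‖ ^ 1) := by
    have h1 := (hasDerivAt_iff_isLittleO).1 hl'
    simp only [smul_zero, sub_zero] at h1
    simp only [pow_one, sub_zero]
    exact h1.norm_right
  have h5 := Complex.dist_le_mul_div_pow_of_mapsTo_ball_of_isLittleO (n := 1) (f := l) (c := 0)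
    (R₁ := R / 2) (R₂ := 2 * B) (z := z)
    (hldiff.mono (ball_subset_ball (by linarith)))
    (by
      intro w hw
      simp only [hl0, mem_closedBall, dist_zero_right]
      exact hbc w (by simpa using hw)) ho (by simpa using hz)
  refine ⟨l z, hGl z (by simp; linarith), ?_⟩
  simpa [hl0] using h5

theorem prod_mono (L : List ℝ) (z : ℂ) :
    ‖(L.map (fun x : ℝ => 1 - (z.re : ℂ) / (x : ℂ))).prod‖ ≤
      ‖(L.map (fun x : ℝ => 1 - z / (x : ℂ))).prod‖ := by
  induction L with
  | nil => simp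
  | cons a L ih =>
    simp only [List.map_cons, List.prod_cons, norm_mul]
    have h1 : ‖1 - (z.re : ℂ) / (a : ℂ)‖ ≤ ‖1 - z / (a : ℂ)‖ := by
      have h2 : (1 - (z.re : ℂ) / (a : ℂ)) = (((1 - z / (a : ℂ)).re : ℝ) : ℂ) := by
        simp [Complex.div_ofReal_re]
      rw [h2, Complex.norm_real]
      exact Complex.abs_re_le_norm _
    exact mul_le_mul h1 ih (norm_nonneg _) (norm_nonneg _)

/-- An even entire function of exponential type with only real zeros satisfies
`‖f x‖ ≤ ‖f (x + i y)‖`. -/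
theorem lp_mono {f : ℂ → ℂ} (hf : Differentiable ℂ f) (heven : ∀ z, f (-z) = f z)
    (h0 : f 0 ≠ 0) {C A : ℝ} (hC : ∀ z, ‖f z‖ ≤ C * Real.exp (A * ‖z‖))
    (hreal : ∀ z, f z = 0 → z.im = 0) (z : ℂ) : ‖f (z.re : ℂ)‖ ≤ ‖f z‖ := by
  have hf0 : 0 < ‖f 0‖ := norm_pos_iff.2 h0
  have hC0 : ‖f 0‖ ≤ C := by simpa using hC 0
  have hCpos : 0 < C := hf0.trans_le hC0
  set c : ℝ := 2 * Real.log (C / ‖f 0‖) + 1 with hc
  have hlog : 0 ≤ Real.log (C / ‖f 0‖) := Real.log_nonneg (by rwa [le_div_iff₀ hf0, one_mul])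
  have hcpos : 0 < c := by rw [hc]; linarith
  set K : ℝ := 6 * |A| + c with hK
  have hKpos : 0 < K := by positivity
  set D : ℝ := 4 * K * (2 * ‖z‖) ^ 2 with hD
  have key : ∀ R : ℝ, 1 ≤ R → 2 * ‖z‖ < R →
      ‖f (z.re : ℂ)‖ ^ 2 ≤ Real.exp (D / R) * ‖f z‖ ^ 2 := by
    intro R hR1 hRz
    have hR : 0 < R := by linarith
    set M : ℝ := C * Real.exp (|A| * (3 * R)) with hM
    have hMpos : 0 < M := by positivity
    have hMb : ∀ w : ℂ, ‖w‖ = 3 * R → ‖f w‖ ≤ M := by
      intro w hw
      refine (hC w).trans ?_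
      rw [hM, hw]
      gcongr
      exact le_abs_self A
    obtain ⟨n, hn⟩ := pow_unbounded_of_one_lt (M / ‖f 0‖) (one_lt_two)
    have hn' : M < 2 ^ n * ‖f 0‖ := by rwa [div_lt_iff₀ hf0] at hn
    obtain ⟨L, g, hg, hgne, hfg, hgM⟩ := factor hR n M f hf h0 hMb hn' hreal
    set P : ℂ → ℂ := fun w => (L.map (fun x : ℝ => 1 - w / (x : ℂ))).prod with hP
    have hP0 : P 0 = 1 := by
      simp only [hP, zero_div, sub_zero, List.map_const', List.prod_replicate, one_pow]
    have hg0 : g 0 = f 0 := by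
      have := hfg 0
      rw [this]
      change g 0 = g 0 * P 0
      rw [hP0, mul_one]
    set G : ℂ → ℂ := fun w => g w * g (-w) with hG
    have hGd : Differentiable ℂ G := hg.mul (hg.comp differentiable_neg)
    have hgall : ∀ w : ℂ, ‖w‖ ≤ 3 * R → ‖g w‖ ≤ M := by
      intro w hw
      apply Complex.norm_le_of_forall_mem_frontier_norm_le (U := ball (0 : ℂ) (3 * R))
        isBounded_ball hg.diffContOnCl
      · intro v hv
        apply hgM
        have := frontier_ball_subset_sphere hv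
        simpa using this
      · rw [closure_ball _ (by positivity)]
        simpa using hw
    have hGeven : ∀ w, G (-w) = G w := by
      intro w
      simp only [hG, neg_neg]
      ring
    have hGne : ∀ w : ℂ, ‖w‖ < R → G w ≠ 0 := by
      intro w hw
      exact mul_ne_zero (hgne w hw.le) (hgne (-w) (by rw [norm_neg]; exact hw.le))
    set B : ℝ := K * R with hB
    have hBpos : 0 < B := by positivity
    have hGbd : ∀ w : ℂ, ‖w‖ < R → ‖G w‖ ≤ ‖G 0‖ * Real.exp B := by
      intro w hw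
      have h1 : ‖G w‖ ≤ M * M := by
        simp only [hG, norm_mul]
        apply mul_le_mul (hgall w (by linarith)) (hgall (-w) (by rw [norm_neg]; linarith))
          (norm_nonneg _) hMpos.le
      have h2 : ‖G 0‖ = ‖f 0‖ * ‖f 0‖ := by
        simp only [hG, neg_zero, norm_mul, hg0]
      have h3 : M = ‖f 0‖ * Real.exp (Real.log (C / ‖f 0‖) + |A| * (3 * R)) := by
        rw [Real.exp_add, Real.exp_log (by positivity), hM]
        field_simp
      rw [h2]
      refine h1.trans ?_
      rw [h3]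
      have h4 : ‖f 0‖ * Real.exp (Real.log (C / ‖f 0‖) + |A| * (3 * R)) *
          (‖f 0‖ * Real.exp (Real.log (C / ‖f 0‖) + |A| * (3 * R))) =
          ‖f 0‖ * ‖f 0‖ * Real.exp (2 * Real.log (C / ‖f 0‖) + 6 * |A| * R) := by
        have : 2 * Real.log (C / ‖f 0‖) + 6 * |A| * R =
          (Real.log (C / ‖f 0‖) + |A| * (3 * R)) + (Real.log (C / ‖f 0‖) + |A| * (3 * R)) := by
          ring
        rw [this, Real.exp_add (Real.log (C / ‖f 0‖) + |A| * (3 * R))
          (Real.log (C / ‖f 0‖) + |A| * (3 * R))]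
        ring
      rw [h4]
      gcongr
      rw [hB, hK, hc]
      nlinarith [abs_nonneg A]
    have hev := fun w (hw : ‖w‖ < R / 2) => even_bound hR hGd.differentiableOn hGne hGeven
      hBpos hGbd (z := w) hw
    have hzR : ‖z‖ < R / 2 := by linarith
    have hxz : ‖(z.re : ℂ)‖ ≤ ‖z‖ := by
      rw [Complex.norm_real]
      exact Complex.abs_re_le_norm z
    obtain ⟨e1, he1, he1b⟩ := hev z hzR
    obtain ⟨e2, he2, he2b⟩ := hev (z.re : ℂ) (by linarith)
    have hsq : ∀ w, ‖f w‖ ^ 2 = ‖G w‖ * (‖P w‖ * ‖P (-w)‖) := by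
      intro w
      have h1 : f w * f (-w) = G w * (P w * P (-w)) := by
        rw [hfg w, hfg (-w)]
        simp only [hG, hP]
        ring
      rw [heven w] at h1
      rw [← norm_mul, ← norm_mul, ← h1, norm_mul, sq]
    have hb : 2 * B * (‖z‖ / (R / 2)) ^ 2 = D / R / 2 := by
      rw [hB, hD]
      field_simp
      ring
    have hb1 : -(D / R / 2) ≤ e1.re := by
      have := (abs_le.1 (Complex.abs_re_le_norm e1)).1
      rw [hb] at he1b
      linarith
    have hb2 : e2.re ≤ D / R / 2 := by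
      have h1 := (abs_le.1 (Complex.abs_re_le_norm e2)).2
      have h2 : 2 * B * (‖(z.re : ℂ)‖ / (R / 2)) ^ 2 ≤ 2 * B * (‖z‖ / (R / 2)) ^ 2 := by
        gcongr
      rw [hb] at h2
      linarith
    have hP1 : ‖P (z.re : ℂ)‖ ≤ ‖P z‖ := prod_mono L z
    have hP2 : ‖P (-(z.re : ℂ))‖ ≤ ‖P (-z)‖ := by
      have := prod_mono L (-z)
      simpa [hP] using this
    clear_value G P
    rw [hsq, hsq, he1, he2, norm_mul, norm_mul, Complex.norm_exp, Complex.norm_exp]
    have h7 : Real.exp e2.re ≤ Real.exp (D / R) * Real.exp e1.re := by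
      rw [← Real.exp_add]
      apply Real.exp_le_exp.2
      linarith
    have h8 : ‖P (z.re : ℂ)‖ * ‖P (-(z.re : ℂ))‖ ≤ ‖P z‖ * ‖P (-z)‖ :=
      mul_le_mul hP1 hP2 (norm_nonneg _) (norm_nonneg _)
    calc ‖G 0‖ * Real.exp e2.re * (‖P (z.re : ℂ)‖ * ‖P (-(z.re : ℂ))‖)
        ≤ ‖G 0‖ * (Real.exp (D / R) * Real.exp e1.re) * (‖P z‖ * ‖P (-z)‖) := by
          gcongr
      _ = Real.exp (D / R) * (‖G 0‖ * Real.exp e1.re * (‖P z‖ * ‖P (-z)‖)) := by ring
  have hlim : Filter.Tendsto (fun R : ℝ => Real.exp (D / R) * ‖f z‖ ^ 2) Filter.atTop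
      (nhds (1 * ‖f z‖ ^ 2)) := by
    apply Filter.Tendsto.mul_const
    have h1 : Filter.Tendsto (fun R : ℝ => D / R) Filter.atTop (nhds 0) :=
      tendsto_const_nhds.div_atTop Filter.tendsto_id
    have h2 := (Real.continuous_exp.tendsto 0).comp h1
    rw [Real.exp_zero] at h2
    exact h2
  have h9 : ‖f (z.re : ℂ)‖ ^ 2 ≤ 1 * ‖f z‖ ^ 2 := by
    apply ge_of_tendsto hlim
    filter_upwards [Filter.eventually_ge_atTop 1, Filter.eventually_gt_atTop (2 * ‖z‖)]
      with R h1 h2 using key R h1 h2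
  rw [one_mul] at h9
  exact le_of_sq_le_sq h9 (norm_nonneg _)

end Pool.Agent.W18.LP
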