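import Mathlib
import Pool.Agent.W18.LPMono

/-!
The Riemann Xi kernel and its truncated cosine transforms: basic facts.
-/

open MeasureTheory Set Filter Topology

namespace Pool.Agent.W18.Xi

/-- The `n`-th term (`n ≥ 0` stands for `n + 1`) of the kernel. -/
noncomputable def term (n : ℕ) (t : ℝ) : ℝ :=
  (2 * ((n : ℝ) + 1) ^ 4 * Real.pi ^ 2 * Real.exp (9 * t)
    - 3 * ((n : ℝ) + 1) ^ 2 * Real.pi * Real.exp (5 * t))
    * Real.exp (-((n : ℝ) + 1) ^ 2 * Real.pi * Real.exp (4 * t))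

/-- The kernel. -/
noncomputable def Phi (t : ℝ) : ℝ := ∑' n : ℕ, term n t

/-- The truncated transform. -/
noncomputable def F (a : ℝ) (z : ℂ) : ℂ := ∫ t in (0 : ℝ)..a, (Phi t : ℂ) * Complex.cos (z * t)

theorem term_cont (n : ℕ) : Continuous (term n) := by
  unfold term
  fun_prop

/-- majorant -/
noncomputable def v (n : ℕ) : ℝ := ((n : ℝ) + 1) ^ 4 * Real.exp (-Real.pi * ((n : ℝ) + 1) ^ 2)

theorem v_pos (n : ℕ) : 0 < v n := by unfold v; positivity

theorem exp_neg_nine : Real.exp (-9) < 1 / 4096 := by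
  have h1 : Real.exp (-9) = (Real.exp (-1)) ^ 9 := by
    rw [← Real.exp_nat_mul]; norm_num
  rw [h1]
  have h2 := Real.exp_neg_one_lt_d9
  have h3 : Real.exp (-1) < 0.37 := by linarith
  calc (Real.exp (-1)) ^ 9 < 0.37 ^ 9 := by
        apply pow_lt_pow_left₀ h3 (Real.exp_pos _).le (by norm_num)
    _ < 1 / 4096 := by norm_num

theorem v_succ (n : ℕ) : v (n + 1) ≤ v n * (1 / 100) := by
  unfold v
  push_cast
  have hn : (0 : ℝ) ≤ n := Nat.cast_nonneg n
  have h1 : Real.exp (-Real.pi * ((n : ℝ) + 1 + 1) ^ 2) =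
      Real.exp (-Real.pi * ((n : ℝ) + 1) ^ 2) * Real.exp (-Real.pi * (2 * n + 3)) := by
    rw [← Real.exp_add]; congr 1; ring
  have h2 : Real.exp (-Real.pi * (2 * n + 3)) ≤ 1 / 4096 := by
    refine le_trans ?_ exp_neg_nine.le
    apply Real.exp_le_exp.2
    nlinarith [Real.pi_gt_three]
  have h3 : ((n : ℝ) + 1 + 1) ^ 4 ≤ 16 * ((n : ℝ) + 1) ^ 4 := by
    have : ((n : ℝ) + 1 + 1) ^ 4 ≤ (2 * ((n : ℝ) + 1)) ^ 4 := by gcongr; linarith
    calc ((n : ℝ) + 1 + 1) ^ 4 ≤ (2 * ((n : ℝ) + 1)) ^ 4 := this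
      _ = 16 * ((n : ℝ) + 1) ^ 4 := by ring
  rw [h1]
  calc ((n : ℝ) + 1 + 1) ^ 4 * (Real.exp (-Real.pi * ((n : ℝ) + 1) ^ 2) *
        Real.exp (-Real.pi * (2 * n + 3)))
      ≤ (16 * ((n : ℝ) + 1) ^ 4) * (Real.exp (-Real.pi * ((n : ℝ) + 1) ^ 2) * (1 / 4096)) := by
        gcongr
    _ = ((n : ℝ) + 1) ^ 4 * Real.exp (-Real.pi * ((n : ℝ) + 1) ^ 2) * (1 / 256) := by ring
    _ ≤ _ := by gcongr; norm_num

theorem v_le (n : ℕ) : v (n + 1) ≤ v 1 * (1 / 100) ^ n := by
  induction n with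
  | zero => simp
  | succ n ih =>
    calc v (n + 1 + 1) ≤ v (n + 1) * (1 / 100) := v_succ _
      _ ≤ v 1 * (1 / 100) ^ n * (1 / 100) := by gcongr
      _ = _ := by rw [pow_succ]; ring

theorem summable_v1 : Summable (fun n => v (n + 1)) := by
  apply Summable.of_nonneg_of_le (fun n => (v_pos _).le) v_le
  exact (summable_geometric_of_lt_one (by norm_num) (by norm_num)).mul_left _

theorem summable_v : Summable v := (summable_nat_add_iff 1).1 summable_v1

theorem tsum_v1 : ∑' n, v (n + 1) ≤ v 1 * (100 / 99) := by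
  calc ∑' n, v (n + 1) ≤ ∑' n, v 1 * (1 / 100 : ℝ) ^ n :=
        summable_v1.tsum_le_tsum v_le
          ((summable_geometric_of_lt_one (by norm_num) (by norm_num)).mul_left _)
    _ = v 1 * (100 / 99) := by
        rw [tsum_mul_left, tsum_geometric_of_lt_one (by norm_num) (by norm_num)]
        norm_num

theorem term_pos (n : ℕ) {t : ℝ} (ht : 0 ≤ t) : 0 < term n t := by
  unfold term
  apply mul_pos _ (Real.exp_pos _)
  have h1 : Real.exp (9 * t) = Real.exp (5 * t) * Real.exp (4 * t) := by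
    rw [← Real.exp_add]; congr 1; ring
  have h2 : 1 ≤ Real.exp (4 * t) := Real.one_le_exp (by linarith)
  have hn : (0 : ℝ) ≤ n := Nat.cast_nonneg n
  have hpi := Real.pi_gt_three
  have h3 : 0 < ((n : ℝ) + 1) ^ 2 * Real.pi * Real.exp (5 * t) := by positivity
  have h4 : 3 < 2 * ((n : ℝ) + 1) ^ 2 * Real.pi * Real.exp (4 * t) := by
    have h5 : 1 ≤ ((n : ℝ) + 1) ^ 2 := by nlinarith
    have h6 : 3 ≤ ((n : ℝ) + 1) ^ 2 * Real.pi := by nlinarith
    nlinarith
  rw [h1]
  nlinarith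

theorem term_le (n : ℕ) {t : ℝ} (ht : 0 ≤ t) : term n t ≤
    2 * Real.pi ^ 2 * v n * Real.exp (-(4 * Real.pi * ((n : ℝ) + 1) ^ 2 - 9) * t) := by
  unfold term v
  have hpi := Real.pi_pos
  have h0 : (2 * ((n : ℝ) + 1) ^ 4 * Real.pi ^ 2 * Real.exp (9 * t)
    - 3 * ((n : ℝ) + 1) ^ 2 * Real.pi * Real.exp (5 * t)) ≤
      2 * ((n : ℝ) + 1) ^ 4 * Real.pi ^ 2 * Real.exp (9 * t) := by
    have : 0 ≤ 3 * ((n : ℝ) + 1) ^ 2 * Real.pi * Real.exp (5 * t) := by positivity
    linarith
  have h1 : 1 + 4 * t ≤ Real.exp (4 * t) := by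
    have := Real.add_one_le_exp (4 * t); linarith
  have h2 : Real.exp (-((n : ℝ) + 1) ^ 2 * Real.pi * Real.exp (4 * t)) ≤
      Real.exp (-((n : ℝ) + 1) ^ 2 * Real.pi * (1 + 4 * t)) := by
    apply Real.exp_le_exp.2
    have : 0 ≤ ((n : ℝ) + 1) ^ 2 * Real.pi := by positivity
    nlinarith
  calc _ ≤ 2 * ((n : ℝ) + 1) ^ 4 * Real.pi ^ 2 * Real.exp (9 * t) *
        Real.exp (-((n : ℝ) + 1) ^ 2 * Real.pi * (1 + 4 * t)) := by
        apply mul_le_mul h0 h2 (Real.exp_pos _).le (by positivity)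
    _ = 2 * ((n : ℝ) + 1) ^ 4 * Real.pi ^ 2 * (Real.exp (9 * t) *
        Real.exp (-((n : ℝ) + 1) ^ 2 * Real.pi * (1 + 4 * t))) := by ring
    _ = 2 * ((n : ℝ) + 1) ^ 4 * Real.pi ^ 2 * (Real.exp (-Real.pi * ((n : ℝ) + 1) ^ 2) *
        Real.exp (-(4 * Real.pi * ((n : ℝ) + 1) ^ 2 - 9) * t)) := by
        rw [← Real.exp_add, ← Real.exp_add]; congr 2; ring
    _ = _ := by ring

theorem term_le' (n : ℕ) {t : ℝ} (ht : 0 ≤ t) : term n t ≤ 2 * Real.pi ^ 2 * v n := by
  refine (term_le n ht).trans ?_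
  have h1 : Real.exp (-(4 * Real.pi * ((n : ℝ) + 1) ^ 2 - 9) * t) ≤ 1 := by
    rw [Real.exp_le_one_iff]
    have hn : (0 : ℝ) ≤ n := Nat.cast_nonneg n
    have h5 : 1 ≤ ((n : ℝ) + 1) ^ 2 := by nlinarith
    have h6 : 9 ≤ 4 * Real.pi * ((n : ℝ) + 1) ^ 2 := by nlinarith [Real.pi_gt_three]
    nlinarith
  have h2 : 0 ≤ 2 * Real.pi ^ 2 * v n := by have := v_pos n; positivity
  calc _ ≤ 2 * Real.pi ^ 2 * v n * 1 := by gcongr
    _ = _ := mul_one _

theorem summable_bd : Summable (fun n => 2 * Real.pi ^ 2 * v n) := summable_v.mul_left _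

theorem term_norm_le (n : ℕ) (t : ℝ) (ht : t ∈ Ici (0 : ℝ)) :
    ‖term n t‖ ≤ 2 * Real.pi ^ 2 * v n := by
  rw [Real.norm_of_nonneg (term_pos n ht).le]
  exact term_le' n ht

theorem summable_term {t : ℝ} (ht : 0 ≤ t) : Summable (fun n => term n t) :=
  Summable.of_norm_bounded summable_bd (fun n => term_norm_le n t ht)

theorem Phi_cont : ContinuousOn Phi (Ici 0) :=
  continuousOn_tsum (fun n => (term_cont n).continuousOn) summable_bd term_norm_le

theorem Phi_split {t : ℝ} (ht : 0 ≤ t) : Phi t = term 0 t + ∑' n, term (n + 1) t := by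
  unfold Phi
  exact (summable_term ht).tsum_eq_zero_add

theorem Phi_pos {t : ℝ} (ht : 0 ≤ t) : 0 < Phi t :=
  (summable_term ht).tsum_pos (fun n => (term_pos n ht).le) 0 (term_pos 0 ht)

theorem rest_bound {t : ℝ} (ht : 0 ≤ t) : |Phi t - term 0 t| ≤
    2 * Real.pi ^ 2 * (v 1 * (100 / 99)) * Real.exp (-(16 * Real.pi - 9) * t) := by
  rw [Phi_split ht, add_sub_cancel_left]
  have hs : Summable (fun n => term (n + 1) t) := (summable_nat_add_iff 1).2 (summable_term ht)
  rw [abs_of_nonneg (tsum_nonneg fun n => (term_pos _ ht).le)]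
  have h1 : ∀ n, term (n + 1) t ≤
      v (n + 1) * (2 * Real.pi ^ 2 * Real.exp (-(16 * Real.pi - 9) * t)) := by
    intro n
    refine (term_le (n + 1) ht).trans ?_
    have h2 : Real.exp (-(4 * Real.pi * (((n + 1 : ℕ) : ℝ) + 1) ^ 2 - 9) * t) ≤
        Real.exp (-(16 * Real.pi - 9) * t) := by
      apply Real.exp_le_exp.2
      push_cast
      have hn : (0 : ℝ) ≤ n := Nat.cast_nonneg n
      have h5 : 4 ≤ ((n : ℝ) + 1 + 1) ^ 2 := by nlinarith
      have h6 : 16 * Real.pi ≤ 4 * Real.pi * ((n : ℝ) + 1 + 1) ^ 2 := by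
        nlinarith [Real.pi_pos]
      nlinarith
    have h3 := v_pos (n + 1)
    calc 2 * Real.pi ^ 2 * v (n + 1) * Real.exp (-(4 * Real.pi * (((n + 1 : ℕ) : ℝ) + 1) ^ 2 - 9) * t)
        ≤ 2 * Real.pi ^ 2 * v (n + 1) * Real.exp (-(16 * Real.pi - 9) * t) := by gcongr
      _ = _ := by ring
  calc ∑' n, term (n + 1) t
      ≤ ∑' n, v (n + 1) * (2 * Real.pi ^ 2 * Real.exp (-(16 * Real.pi - 9) * t)) :=
        hs.tsum_le_tsum h1 (summable_v1.mul_right _)
    _ = (∑' n, v (n + 1)) * (2 * Real.pi ^ 2 * Real.exp (-(16 * Real.pi - 9) * t)) := tsum_mul_right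
    _ ≤ (v 1 * (100 / 99)) * (2 * Real.pi ^ 2 * Real.exp (-(16 * Real.pi - 9) * t)) := by
        gcongr
        exact tsum_v1
    _ = _ := by ring

theorem norm_cos_le (z : ℂ) (t : ℝ) (ht : 0 ≤ t) :
    ‖Complex.cos (z * t)‖ ≤ Real.exp (|z.im| * t) := by
  have h1 : ‖Complex.cos (z * t)‖ ≤
      (‖Complex.exp (z * t * Complex.I)‖ + ‖Complex.exp (-(z * t) * Complex.I)‖) / 2 := by
    rw [Complex.cos, norm_div]
    have : ‖(2 : ℂ)‖ = 2 := by simp
    rw [this]
    gcongr
    exact norm_add_le _ _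
  have h2 : (z * t * Complex.I).re = -(z.im * t) := by simp
  have h3 : (-(z * t) * Complex.I).re = z.im * t := by simp
  rw [Complex.norm_exp, Complex.norm_exp, h2, h3] at h1
  have h4 : Real.exp (-(z.im * t)) ≤ Real.exp (|z.im| * t) := by
    apply Real.exp_le_exp.2; nlinarith [neg_abs_le z.im]
  have h5 : Real.exp (z.im * t) ≤ Real.exp (|z.im| * t) := by
    apply Real.exp_le_exp.2; nlinarith [le_abs_self z.im]
  linarith

theorem F_even (a : ℝ) (z : ℂ) : F a (-z) = F a z := by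
  unfold F
  congr 1
  ext t
  rw [neg_mul, Complex.cos_neg]

theorem cont_integrand {a : ℝ} (ha : 0 ≤ a) (z : ℂ) :
    ContinuousOn (fun t : ℝ => (Phi t : ℂ) * Complex.cos (z * t)) (uIcc 0 a) := by
  rw [uIcc_of_le ha]
  apply ContinuousOn.mul
  · exact Complex.continuous_ofReal.comp_continuousOn (Phi_cont.mono Icc_subset_Ici_self)
  · fun_prop

theorem F_norm_le {a : ℝ} (ha : 0 ≤ a) (z : ℂ) :
    ‖F a z‖ ≤ (∫ t in (0 : ℝ)..a, Phi t) * Real.exp (a * ‖z‖) := by
  unfold F
  rw [← intervalIntegral.integral_mul_const]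
  apply intervalIntegral.norm_integral_le_of_norm_le ha
  · refine Filter.Eventually.of_forall fun t ht => ?_
    rw [norm_mul, Complex.norm_real, Real.norm_of_nonneg (Phi_pos ht.1.le).le]
    have h1 := norm_cos_le z t ht.1.le
    have h2 : Real.exp (|z.im| * t) ≤ Real.exp (a * ‖z‖) := by
      apply Real.exp_le_exp.2
      have := Complex.abs_im_le_norm z
      have h3 := ht.2
      have h4 := ht.1
      have h5 := norm_nonneg z
      have h6 := abs_nonneg z.im
      nlinarith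
    have := (Phi_pos ht.1.le).le
    gcongr
    exact h1.trans h2
  · apply ContinuousOn.intervalIntegrable
    rw [uIcc_of_le ha]
    exact (Phi_cont.mono Icc_subset_Ici_self).mul_const _

theorem F_zero_ne {a : ℝ} (ha : 0 < a) : F a 0 ≠ 0 := by
  unfold F
  simp only [zero_mul, Complex.cos_zero, mul_one]
  rw [intervalIntegral.integral_ofReal]
  have h1 : 0 < ∫ t in (0 : ℝ)..a, Phi t := by
    apply intervalIntegral.intervalIntegral_pos_of_pos_on
    · apply ContinuousOn.intervalIntegrable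
      rw [uIcc_of_le ha.le]
      exact Phi_cont.mono Icc_subset_Ici_self
    · intro t ht
      exact Phi_pos ht.1.le
    · exact ha
  exact_mod_cast h1.ne'

theorem F_diff {a : ℝ} (ha : 0 ≤ a) : Differentiable ℂ (F a) := by
  intro z₀
  have h := intervalIntegral.hasDerivAt_integral_of_dominated_loc_of_deriv_le (μ := volume)
    (F := fun (z : ℂ) (t : ℝ) => (Phi t : ℂ) * Complex.cos (z * t))
    (F' := fun (z : ℂ) (t : ℝ) => (Phi t : ℂ) * (-Complex.sin (z * t) * t))
    (a := 0) (b := a) (x₀ := z₀) (s := Metric.ball z₀ 1)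
    (bound := fun t => Phi t * (Real.exp (a * (‖z₀‖ + 1)) * a))
    (Metric.ball_mem_nhds z₀ one_pos)
    (Filter.Eventually.of_forall fun z => by
      have := (cont_integrand ha z).intervalIntegrable (μ := volume)
      exact this.def'.aestronglyMeasurable)
    ((cont_integrand ha z₀).intervalIntegrable)
    (by
      have h1 : ContinuousOn (fun t : ℝ => (Phi t : ℂ) * (-Complex.sin (z₀ * t) * t))
          (uIcc 0 a) := by
        rw [uIcc_of_le ha]
        apply ContinuousOn.mul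
        · exact Complex.continuous_ofReal.comp_continuousOn (Phi_cont.mono Icc_subset_Ici_self)
        · fun_prop
      exact (h1.intervalIntegrable (μ := volume)).def'.aestronglyMeasurable)
    (Filter.Eventually.of_forall fun t ht z hz => by
      rw [uIoc_of_le ha] at ht
      rw [norm_mul, Complex.norm_real, Real.norm_of_nonneg (Phi_pos ht.1.le).le]
      have h0 := (Phi_pos ht.1.le).le
      have h1 : ‖-Complex.sin (z * t) * t‖ ≤ Real.exp (a * (‖z₀‖ + 1)) * a := by
        rw [norm_mul, norm_neg, Complex.norm_real, Real.norm_of_nonneg ht.1.le]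
        have hz' : ‖z‖ ≤ ‖z₀‖ + 1 := by
          have h2 : ‖z - z₀‖ < 1 := by simpa [dist_eq_norm] using hz
          have h3 : ‖z‖ ≤ ‖z - z₀‖ + ‖z₀‖ := by
            simpa using norm_add_le (z - z₀) z₀
          linarith
        have h4 : ‖Complex.sin (z * t)‖ ≤ Real.exp (|z.im| * t) := by
          have h1 : ‖Complex.sin (z * t)‖ ≤
              (‖Complex.exp (-(z * t) * Complex.I)‖ + ‖Complex.exp (z * t * Complex.I)‖) / 2 := by
            rw [Complex.sin, norm_div, norm_mul]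
            have : ‖(2 : ℂ)‖ = 2 := by simp
            rw [this, Complex.norm_I, mul_one]
            gcongr
            exact norm_sub_le _ _
          have h2 : (z * t * Complex.I).re = -(z.im * t) := by simp
          have h3 : (-(z * t) * Complex.I).re = z.im * t := by simp
          rw [Complex.norm_exp, Complex.norm_exp, h2, h3] at h1
          have h4 : Real.exp (-(z.im * t)) ≤ Real.exp (|z.im| * t) := by
            apply Real.exp_le_exp.2; nlinarith [neg_abs_le z.im, ht.1]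
          have h5 : Real.exp (z.im * t) ≤ Real.exp (|z.im| * t) := by
            apply Real.exp_le_exp.2; nlinarith [le_abs_self z.im, ht.1]
          linarith
        have h5 : Real.exp (|z.im| * t) ≤ Real.exp (a * (‖z₀‖ + 1)) := by
          apply Real.exp_le_exp.2
          have h6 := Complex.abs_im_le_norm z
          have h7 := abs_nonneg z.im
          have h8 := ht.1
          have h9 := ht.2
          nlinarith
        have h6 := ht.1.le
        have h7 := ht.2
        gcongr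
        exact h4.trans h5
      gcongr)
    (by
      apply ContinuousOn.intervalIntegrable
      rw [uIcc_of_le ha]
      exact (Phi_cont.mono Icc_subset_Ici_self).mul_const _)
    (Filter.Eventually.of_forall fun t ht z hz => by
      have h1 : HasDerivAt (fun z : ℂ => z * (t : ℂ)) (t : ℂ) z := by
        simpa using (hasDerivAt_id z).mul_const (t : ℂ)
      exact (h1.ccos).const_mul _)
  exact h.2.differentiableAt

/-- If the modulus of `F a` is not monotone on a vertical line, then `F a` has a non-real zero. -/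
theorem exists_nonreal {a : ℝ} (ha : 0 < a) {z : ℂ} (hz : ‖F a z‖ < ‖F a (z.re : ℂ)‖) :
    ∃ w : ℂ, F a w = 0 ∧ w.im ≠ 0 := by
  by_contra hcon
  push Not at hcon
  have := LP.lp_mono (F_diff ha.le) (F_even a) (F_zero_ne ha) (F_norm_le ha.le) hcon z
  linarith

end Pool.Agent.W18.Xi
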