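import Mathlib
import Pool.Agent.W18.XiKer

/-!
Integrals of the first term of the Xi kernel against exponentials through approximate
antiderivatives.
-/

open MeasureTheory Set Filter Topology

namespace Pool.Agent.W18.Xi

theorem term_zero (t : ℝ) : term 0 t =
    (2 * Real.pi ^ 2 * Real.exp (9 * t) - 3 * Real.pi * Real.exp (5 * t))
    * Real.exp (-Real.pi * Real.exp (4 * t)) := by
  unfold term
  norm_num

/-- The end point. -/
noncomputable def a₀ : ℝ := Real.log 3 / 4

theorem a₀_pos : 0 < a₀ := by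
  unfold a₀
  have := Real.log_pos (by norm_num : (1 : ℝ) < 3)
  positivity

theorem exp_four_a₀ : Real.exp (4 * a₀) = 3 := by
  unfold a₀
  rw [show 4 * (Real.log 3 / 4) = Real.log 3 by ring, Real.exp_log (by norm_num)]

/-- Integral of the first term against an exponential. -/
noncomputable def I1 (c : ℂ) : ℂ := ∫ t in (0 : ℝ)..a₀, (term 0 t : ℂ) * Complex.exp (c * t)

theorem integral_exp_le {k b : ℝ} (hk : 0 < k) :
    ∫ t in (0 : ℝ)..b, Real.exp (-k * t) ≤ 1 / k := by
  have h : ∀ t ∈ uIcc 0 b, HasDerivAt (fun t => -(Real.exp (-k * t)) / k) (Real.exp (-k * t)) t := by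
    intro t _
    have h1 : HasDerivAt (fun t : ℝ => -k * t) (-k) t := by
      simpa using (hasDerivAt_id t).const_mul (-k)
    have h2 := (h1.exp.neg).div_const k
    refine h2.congr_deriv ?_
    field_simp
  rw [intervalIntegral.integral_eq_sub_of_hasDerivAt h
    ((by fun_prop : Continuous fun t : ℝ => Real.exp (-k * t)).intervalIntegrable _ _)]
  simp only [mul_zero, Real.exp_zero]
  have h3 := Real.exp_pos (-k * b)
  rw [← sub_nonneg]
  have : 1 / k - (-Real.exp (-k * b) / k - -1 / k) = Real.exp (-k * b) / k := by ring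
  rw [this]
  positivity

/-- Polynomials of degree at most `12`. -/
noncomputable def pol (a : ℕ → ℝ) (w : ℝ) : ℝ := ∑ k ∈ Finset.range 13, a k * w ^ k

noncomputable def dpol (a : ℕ → ℝ) (w : ℝ) : ℝ :=
  ∑ k ∈ Finset.range 13, a k * (k * w ^ (k - 1))

theorem pol_deriv (a : ℕ → ℝ) (w : ℝ) : HasDerivAt (pol a) (dpol a w) w := by
  unfold pol dpol
  apply HasDerivAt.fun_sum
  intro k _
  exact (hasDerivAt_pow k w).const_mul (a k)

theorem dpol_cont (a : ℕ → ℝ) : Continuous (dpol a) := by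
  unfold dpol
  fun_prop

theorem pol_cont (a : ℕ → ℝ) : Continuous (pol a) := by
  unfold pol
  fun_prop

theorem est (a b : ℕ → ℝ) (cr ci e1 e2 : ℝ) (hcr : 5 + cr < 4 * Real.pi)
    (h1 : ∀ w, |w| ≤ 1 → |4 * (2 + w) * dpol a w + (5 + cr - 4 * Real.pi * (2 + w)) * pol a w
      - ci * pol b w - (2 * Real.pi ^ 2 * (2 + w) - 3 * Real.pi)| ≤ e1)
    (h2 : ∀ w, |w| ≤ 1 → |4 * (2 + w) * dpol b w + (5 + cr - 4 * Real.pi * (2 + w)) * pol b w
      + ci * pol a w| ≤ e2) :
    ‖I1 (⟨cr, ci⟩ : ℂ) - ((Real.exp (-3 * Real.pi) : ℂ) *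
        Complex.exp ((5 + (⟨cr, ci⟩ : ℂ)) * a₀) * (⟨pol a 1, pol b 1⟩ : ℂ)
      - (Real.exp (-Real.pi) : ℂ) * (⟨pol a (-1), pol b (-1)⟩ : ℂ))‖ ≤
      (e1 + e2) * (Real.exp (-Real.pi) / (4 * Real.pi - 5 - cr)) := by
  set c : ℂ := ⟨cr, ci⟩ with hc
  set v : ℝ → ℝ := fun t => Real.exp (4 * t) with hv
  set s : ℝ → ℂ := fun t => (pol a (v t - 2) : ℂ) + (pol b (v t - 2) : ℂ) * Complex.I with hs
  set E : ℝ → ℂ := fun t => Complex.exp ((5 + c) * t) with hE
  set h : ℝ → ℝ := fun t => Real.exp (-Real.pi * v t) with hh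
  set ρ : ℝ → ℂ := fun t =>
    ((4 * (2 + (v t - 2)) * dpol a (v t - 2) +
      (5 + cr - 4 * Real.pi * (2 + (v t - 2))) * pol a (v t - 2)
      - ci * pol b (v t - 2) - (2 * Real.pi ^ 2 * (2 + (v t - 2)) - 3 * Real.pi) : ℝ) : ℂ) +
    ((4 * (2 + (v t - 2)) * dpol b (v t - 2) +
      (5 + cr - 4 * Real.pi * (2 + (v t - 2))) * pol b (v t - 2)
      + ci * pol a (v t - 2) : ℝ) : ℂ) * Complex.I with hρ
  have hvd : ∀ t, HasDerivAt v (4 * v t) t := by
    intro t
    have h3 : HasDerivAt (fun t : ℝ => 4 * t) 4 t := by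
      simpa using (hasDerivAt_id t).const_mul (4 : ℝ)
    exact h3.exp.congr_deriv (by simp only [hv]; ring)
  have hvc : Continuous v := by fun_prop
  have hhd : ∀ t, HasDerivAt h (-(4 * Real.pi * v t) * h t) t := by
    intro t
    exact ((hvd t).const_mul (-Real.pi)).exp.congr_deriv (by simp only [hh]; ring)
  have hEd : ∀ t : ℝ, HasDerivAt E ((5 + c) * E t) t := by
    intro t
    have h3 : HasDerivAt (fun t : ℝ => (5 + c) * (t : ℂ)) (5 + c) t := by
      simpa using (Complex.ofRealCLM.hasDerivAt (x := t)).const_mul (5 + c)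
    exact h3.cexp.congr_deriv (by simp only [hE]; ring)
  have hsd : ∀ t, HasDerivAt s (((dpol a (v t - 2) * (4 * v t) : ℝ) : ℂ) +
      ((dpol b (v t - 2) * (4 * v t) : ℝ) : ℂ) * Complex.I) t := by
    intro t
    have h3 : HasDerivAt (fun t => v t - 2) (4 * v t) t := (hvd t).sub_const 2
    have h4 := ((pol_deriv a (v t - 2)).comp t h3).ofReal_comp
    have h5 := (((pol_deriv b (v t - 2)).comp t h3).ofReal_comp).mul_const Complex.I
    exact h4.add h5
  set W : ℝ → ℂ := fun t => (h t : ℂ) * E t * s t with hW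
  have hWd : ∀ t, HasDerivAt W ((term 0 t : ℂ) * Complex.exp (c * t) +
      (h t : ℂ) * E t * ρ t) t := by
    intro t
    have h3 := (((hhd t).ofReal_comp).mul (hEd t)).mul (hsd t)
    refine h3.congr_deriv ?_
    have h4 : (term 0 t : ℂ) * Complex.exp (c * t) =
        (h t : ℂ) * E t * (2 * Real.pi ^ 2 * v t - 3 * Real.pi) := by
      rw [term_zero]
      have h5 : Real.exp (9 * t) = Real.exp (5 * t) * v t := by
        rw [hv, ← Real.exp_add]; congr 1; ring
      have h6 : E t = (Real.exp (5 * t) : ℂ) * Complex.exp (c * t) := by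
        rw [hE]
        simp only
        rw [Complex.ofReal_exp, ← Complex.exp_add]
        congr 1
        push_cast
        ring
      have h7 : Real.exp (-Real.pi * Real.exp (4 * t)) = h t := rfl
      rw [h5, h6, h7]
      push_cast
      ring
    rw [h4]
    have hcc : c = (cr : ℂ) + (ci : ℂ) * Complex.I := by
      rw [hc]; apply Complex.ext <;> simp
    have hI : Complex.I * Complex.I = -1 := Complex.I_mul_I
    simp only [hρ, hs, Pi.mul_apply]
    rw [hcc]
    push_cast
    linear_combination ((h t : ℂ) * E t * (ci : ℂ) * (pol b (v t - 2) : ℂ)) * hI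
  have hρc : Continuous ρ := by
    have := pol_cont a
    have := pol_cont b
    have := dpol_cont a
    have := dpol_cont b
    fun_prop
  have hhc : Continuous h := by fun_prop
  have hEc : Continuous E := by fun_prop
  have hi1 : IntervalIntegrable (fun t : ℝ => (term 0 t : ℂ) * Complex.exp (c * t)) volume 0 a₀ := by
    apply Continuous.intervalIntegrable
    have := term_cont 0
    fun_prop
  have hi2 : IntervalIntegrable (fun t : ℝ => (h t : ℂ) * E t * ρ t) volume 0 a₀ := by
    apply Continuous.intervalIntegrable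
    fun_prop
  have hint : (∫ t in (0 : ℝ)..a₀, ((term 0 t : ℂ) * Complex.exp (c * t) +
      (h t : ℂ) * E t * ρ t)) = W a₀ - W 0 :=
    intervalIntegral.integral_eq_sub_of_hasDerivAt (fun t _ => hWd t) (hi1.add hi2)
  rw [intervalIntegral.integral_add hi1 hi2] at hint
  have hv0 : v 0 = 1 := by simp [hv]
  have hva : v a₀ = 3 := exp_four_a₀
  have hWa : W a₀ = (Real.exp (-3 * Real.pi) : ℂ) *
        Complex.exp ((5 + c) * a₀) * (⟨pol a 1, pol b 1⟩ : ℂ) := by
    simp only [hW, hs, hh, hE, hva]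
    have h3 : (⟨pol a 1, pol b 1⟩ : ℂ) = (pol a 1 : ℂ) + (pol b 1 : ℂ) * Complex.I := by
      apply Complex.ext <;> simp
    rw [h3, show (-Real.pi * 3 : ℝ) = -3 * Real.pi by ring]
    norm_num
  have hW0 : W 0 = (Real.exp (-Real.pi) : ℂ) * (⟨pol a (-1), pol b (-1)⟩ : ℂ) := by
    simp only [hW, hs, hh, hE, hv0]
    have h3 : (⟨pol a (-1), pol b (-1)⟩ : ℂ) = (pol a (-1) : ℂ) + (pol b (-1) : ℂ) * Complex.I := by
      apply Complex.ext <;> simp
    rw [h3]
    norm_num
  have hI1 : I1 c = ∫ t in (0 : ℝ)..a₀, (term 0 t : ℂ) * Complex.exp (c * t) := rfl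
  have hdiff : I1 c - ((Real.exp (-3 * Real.pi) : ℂ) *
        Complex.exp ((5 + c) * a₀) * (⟨pol a 1, pol b 1⟩ : ℂ)
      - (Real.exp (-Real.pi) : ℂ) * (⟨pol a (-1), pol b (-1)⟩ : ℂ)) =
      -∫ t in (0 : ℝ)..a₀, (h t : ℂ) * E t * ρ t := by
    rw [← hWa, ← hW0, ← hint, hI1]
    ring
  rw [hdiff, norm_neg]
  set k : ℝ := 4 * Real.pi - 5 - cr with hk
  have hkpos : 0 < k := by rw [hk]; linarith
  have he12 : 0 ≤ e1 + e2 := by
    have h3 := (abs_nonneg _).trans (h1 0 (by simp))
    have h4 := (abs_nonneg _).trans (h2 0 (by simp))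
    linarith
  have hb : ‖∫ t in (0 : ℝ)..a₀, (h t : ℂ) * E t * ρ t‖ ≤
      ∫ t in (0 : ℝ)..a₀, ((e1 + e2) * Real.exp (-Real.pi)) * Real.exp (-k * t) := by
    apply intervalIntegral.norm_integral_le_of_norm_le a₀_pos.le
    · refine Filter.Eventually.of_forall fun t ht => ?_
      have hv1 : 1 ≤ v t := Real.one_le_exp (by linarith [ht.1])
      have hv3 : v t ≤ 3 := by
        rw [← hva]
        apply Real.exp_le_exp.2
        linarith [ht.2]
      have hw : |v t - 2| ≤ 1 := abs_le.2 ⟨by linarith, by linarith⟩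
      have hρb : ‖ρ t‖ ≤ e1 + e2 := by
        simp only [hρ]
        refine (norm_add_le _ _).trans ?_
        rw [norm_mul, Complex.norm_I, mul_one, Complex.norm_real, Complex.norm_real]
        exact add_le_add (h1 _ hw) (h2 _ hw)
      have hEn : ‖E t‖ = Real.exp ((5 + cr) * t) := by
        simp only [hE]
        rw [Complex.norm_exp]
        congr 1
        simp [hc]
      rw [norm_mul, norm_mul, hEn, Complex.norm_real, Real.norm_of_nonneg (Real.exp_pos _).le]
      have h5 : h t ≤ Real.exp (-Real.pi * (1 + 4 * t)) := by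
        apply Real.exp_le_exp.2
        have : 1 + 4 * t ≤ v t := by
          have := Real.add_one_le_exp (4 * t)
          simp only [hv]
          linarith
        nlinarith [Real.pi_pos]
      calc h t * Real.exp ((5 + cr) * t) * ‖ρ t‖
          ≤ Real.exp (-Real.pi * (1 + 4 * t)) * Real.exp ((5 + cr) * t) * (e1 + e2) := by
            gcongr
        _ = (e1 + e2) * (Real.exp (-Real.pi * (1 + 4 * t)) * Real.exp ((5 + cr) * t)) := by ring
        _ = (e1 + e2) * (Real.exp (-Real.pi) * Real.exp (-k * t)) := by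
            rw [← Real.exp_add, ← Real.exp_add, hk]
            congr 2
            ring
        _ = _ := by ring
    · apply Continuous.intervalIntegrable
      fun_prop
  refine hb.trans ?_
  rw [intervalIntegral.integral_const_mul]
  have h6 := integral_exp_le (b := a₀) hkpos
  calc (e1 + e2) * Real.exp (-Real.pi) * ∫ t in (0 : ℝ)..a₀, Real.exp (-k * t)
      ≤ (e1 + e2) * Real.exp (-Real.pi) * (1 / k) := by
        gcongr
    _ = _ := by ring

end Pool.Agent.W18.Xi
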