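import Mathlib
import Pool.Agent.W18.XiNum

/-!
Numerical data: approximate antiderivatives for the integrals of the first term of the kernel
against `exp (27 i t)`, `exp ((-3 + 27 i) t)`, `exp ((3 + 27 i) t)`, with residual bounds.
(Generated by a script.)
-/

namespace Pool.Agent.W18.Xi

theorem pi_sq_gt : 9.86960440108 < Real.pi ^ 2 := by
  nlinarith [Real.pi_gt_d20]

theorem pi_sq_lt : Real.pi ^ 2 < 9.86960440109 := by
  nlinarith [Real.pi_lt_d20, Real.pi_pos]

theorem sum_bd (c e : ℕ → ℝ) (h : ∀ k < 14, |c k| ≤ e k) (w : ℝ) (hw : |w| ≤ 1) :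
    |∑ k ∈ Finset.range 14, c k * w ^ k| ≤ ∑ k ∈ Finset.range 14, e k := by
  refine (Finset.abs_sum_le_sum_abs _ _).trans ?_
  apply Finset.sum_le_sum
  intro k hk
  rw [Finset.mem_range] at hk
  rw [abs_mul, abs_pow]
  have h1 := h k hk
  have h2 : |w| ^ k ≤ 1 := pow_le_one₀ (abs_nonneg w) hw
  calc |c k| * |w| ^ k ≤ e k * 1 := by
        apply mul_le_mul h1 h2 (by positivity) ((abs_nonneg _).trans h1)
    _ = e k := mul_one _

noncomputable def a0 : ℕ → ℝ
  | 0 => (-1404811/2000000)
  | 1 => (-688569/1250000)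
  | 2 => (581931/625000)
  | 3 => (2207721/2000000)
  | 4 => (3224077/10000000)
  | 5 => (-243171/2500000)
  | 6 => (-1471889/10000000)
  | 7 => (-93873/1250000)
  | 8 => (-24829/1000000)
  | 9 => (-31289/5000000)
  | 10 => (-323/500000)
  | 11 => (-271/2500000)
  | 12 => (527/5000000)
  | _ => 0

noncomputable def b0 : ℕ → ℝ
  | 0 => (-1505121/2000000)
  | 1 => (2383651/5000000)
  | 2 => (4095969/5000000)
  | 3 => (-1918663/5000000)
  | 4 => (-3536053/5000000)
  | 5 => (-4112463/10000000)
  | 6 => (-1315711/10000000)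
  | 7 => (-122313/10000000)
  | 8 => (36759/5000000)
  | 9 => (14911/2500000)
  | 10 => (20839/10000000)
  | 11 => (2897/5000000)
  | 12 => (199/1250000)
  | _ => 0

noncomputable def cR0 : ℕ → ℝ
  | 0 => (31000661/2500000) + (2154811/250000) * Real.pi + (-4) * Real.pi ^ 2
  | 1 => (-14659893/5000000) + (18041159/2500000) * Real.pi + (-2) * Real.pi ^ 2
  | 2 => (82392921/5000000) + (-327831/62500) * Real.pi + (0) * Real.pi ^ 2
  | 3 => (394434551/10000000) + (-15694053/1250000) * Real.pi + (0) * Real.pi ^ 2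
  | 4 => (219745119/10000000) + (-17486759/2500000) * Real.pi + (0) * Real.pi ^ 2
  | 5 => (16068729/10000000) + (-1278709/2500000) * Real.pi + (0) * Real.pi ^ 2
  | 6 => (-6151961/1250000) + (1958231/1250000) * Real.pi + (0) * Real.pi ^ 2
  | 7 => (-37370581/10000000) + (2973857/2500000) * Real.pi + (0) * Real.pi ^ 2
  | 8 => (-3919333/2500000) + (311891/625000) * Real.pi + (0) * Real.pi ^ 2
  | 9 => (-2346443/5000000) + (186723/1250000) * Real.pi + (0) * Real.pi ^ 2
  | 10 => (-189749/2000000) + (37749/1250000) * Real.pi + (0) * Real.pi ^ 2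
  | 11 => (-10837/1000000) + (2157/625000) * Real.pi + (0) * Real.pi ^ 2
  | 12 => (6439/5000000) + (-32/78125) * Real.pi + (0) * Real.pi ^ 2
  | 13 => (0) + (-527/1250000) * Real.pi + (0) * Real.pi ^ 2
  | _ => 0

noncomputable def eR0 : ℕ → ℝ
  | 0 => (4257/10000000000)
  | 1 => (8143/5000000000)
  | 2 => (4103/5000000000)
  | 3 => (547/250000000)
  | 4 => (6141/2500000000)
  | 5 => (2203/10000000000)
  | 6 => (24991/10000000000)
  | 7 => (4109/5000000000)
  | 8 => (19591/10000000000)
  | 9 => (25161/10000000000)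
  | 10 => (9153/10000000000)
  | 11 => (52647/10000000000)
  | 12 => (5019/5000000000)
  | 13 => (3311239/2500000000)
  | _ => 0

theorem resR0 (w : ℝ) (hw : |w| ≤ 1) :
    |4 * (2 + w) * dpol a0 w + (5 + (0) - 4 * Real.pi * (2 + w)) * pol a0 w - 27 * pol b0 w
      - (2 * Real.pi ^ 2 * (2 + w) - 3 * Real.pi)| ≤ (27/20000) := by
  have hs : 4 * (2 + w) * dpol a0 w + (5 + (0) - 4 * Real.pi * (2 + w)) * pol a0 w - 27 * pol b0 w
      - (2 * Real.pi ^ 2 * (2 + w) - 3 * Real.pi)
      = ∑ k ∈ Finset.range 14, cR0 k * w ^ k := by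
    simp only [pol, dpol, Finset.sum_range_succ, Finset.sum_range_zero, a0, b0, cR0]
    push_cast
    ring
  rw [hs]
  refine (sum_bd _ eR0 ?_ w hw).trans ?_
  · intro k hk
    have h1 := Real.pi_gt_d20
    have h2 := Real.pi_lt_d20
    have h3 := pi_sq_gt
    have h4 := pi_sq_lt
    interval_cases k <;> simp only [cR0, eR0] <;> rw [abs_le] <;> constructor <;> linarith
  · simp only [Finset.sum_range_succ, Finset.sum_range_zero, eR0]
    norm_num

noncomputable def cI0 : ℕ → ℝ
  | 0 => (-94569547/5000000) + (1505121/250000) * Real.pi + (0) * Real.pi ^ 2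
  | 1 => (12622911/5000000) + (-2008999/2500000) * Real.pi + (0) * Real.pi ^ 2
  | 2 => (132896781/5000000) + (-10575589/1250000) * Real.pi + (0) * Real.pi ^ 2
  | 3 => (6500401/10000000) + (-258643/1250000) * Real.pi + (0) * Real.pi ^ 2
  | 4 => (-225962667/10000000) + (8990769/1250000) * Real.pi + (0) * Real.pi ^ 2
  | 5 => (-192228171/10000000) + (1912129/312500) * Real.pi + (0) * Real.pi ^ 2
  | 6 => (-1694923/200000) + (1348777/500000) * Real.pi + (0) * Real.pi ^ 2
  | 7 => (-3921549/2000000) + (1560337/2500000) * Real.pi + (0) * Real.pi ^ 2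
  | 8 => (19419/625000) + (-24723/2500000) * Real.pi + (0) * Real.pi ^ 2
  | 9 => (1211459/5000000) + (-96403/1250000) * Real.pi + (0) * Real.pi ^ 2
  | 10 => (1273207/10000000) + (-50661/1250000) * Real.pi + (0) * Real.pi ^ 2
  | 11 => (40747/1000000) + (-32427/2500000) * Real.pi + (0) * Real.pi ^ 2
  | 12 => (56417/5000000) + (-4489/1250000) * Real.pi + (0) * Real.pi ^ 2
  | 13 => (0) + (-199/312500) * Real.pi + (0) * Real.pi ^ 2
  | _ => 0

noncomputable def eI0 : ℕ → ℝ
  | 0 => (10947/10000000000)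
  | 1 => (3999/10000000000)
  | 2 => (20323/10000000000)
  | 3 => (6591/10000000000)
  | 4 => (1863/5000000000)
  | 5 => (2413/10000000000)
  | 6 => (2073/2500000000)
  | 7 => (28027/10000000000)
  | 8 => (25621/10000000000)
  | 9 => (46349/10000000000)
  | 10 => (8561/2000000000)
  | 11 => (19701/10000000000)
  | 12 => (6563/5000000000)
  | 13 => (625177/312500000)
  | _ => 0

theorem resI0 (w : ℝ) (hw : |w| ≤ 1) :
    |4 * (2 + w) * dpol b0 w + (5 + (0) - 4 * Real.pi * (2 + w)) * pol b0 w + 27 * pol a0 w| ≤ (203/100000) := by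
  have hs : 4 * (2 + w) * dpol b0 w + (5 + (0) - 4 * Real.pi * (2 + w)) * pol b0 w + 27 * pol a0 w
      = ∑ k ∈ Finset.range 14, cI0 k * w ^ k := by
    simp only [pol, dpol, Finset.sum_range_succ, Finset.sum_range_zero, a0, b0, cI0]
    push_cast
    ring
  rw [hs]
  refine (sum_bd _ eI0 ?_ w hw).trans ?_
  · intro k hk
    have h1 := Real.pi_gt_d20
    have h2 := Real.pi_lt_d20
    have h3 := pi_sq_gt
    have h4 := pi_sq_lt
    interval_cases k <;> simp only [cI0, eI0] <;> rw [abs_le] <;> constructor <;> linarith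
  · simp only [Finset.sum_range_succ, Finset.sum_range_zero, eI0]
    norm_num

theorem a0_one : pol a0 (1) = (941007/1250000) := by
  simp only [pol, Finset.sum_range_succ, Finset.sum_range_zero, a0]
  norm_num

theorem b0_one : pol b0 (1) = (-10864897/10000000) := by
  simp only [pol, Finset.sum_range_succ, Finset.sum_range_zero, b0]
  norm_num

theorem a0_neg : pol a0 (-1) = (4261/1000000) := by
  simp only [pol, Finset.sum_range_succ, Finset.sum_range_zero, a0]
  norm_num

theorem b0_neg : pol b0 (-1) = (-4386173/10000000) := by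
  simp only [pol, Finset.sum_range_succ, Finset.sum_range_zero, b0]
  norm_num

noncomputable def am : ℕ → ℝ
  | 0 => (-6099339/10000000)
  | 1 => (-272333/1000000)
  | 2 => (6275229/10000000)
  | 3 => (670551/2000000)
  | 4 => (-177181/1250000)
  | 5 => (-1160139/5000000)
  | 6 => (-376341/2500000)
  | 7 => (-253329/5000000)
  | 8 => (-23227/2000000)
  | 9 => (-4917/10000000)
  | 10 => (9251/10000000)
  | 11 => (189/625000)
  | 12 => (1967/10000000)
  | _ => 0

noncomputable def bm : ℕ → ℝ
  | 0 => (-6712171/10000000)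
  | 1 => (294101/2500000)
  | 2 => (91329/1250000)
  | 3 => (-5982983/10000000)
  | 4 => (-4623437/10000000)
  | 5 => (-1747277/10000000)
  | 6 => (-19293/10000000)
  | 7 => (334011/10000000)
  | 8 => (46139/2500000)
  | 9 => (79117/10000000)
  | 10 => (4481/2500000)
  | 11 => (157/312500)
  | 12 => (101/2500000)
  | _ => 0

noncomputable def cRm : ℕ → ℝ
  | 0 => (147243299/10000000) + (9849339/1250000) * Real.pi + (-4) * Real.pi ^ 2
  | 1 => (6537597/1250000) + (11545999/2500000) * Real.pi + (-2) * Real.pi ^ 2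
  | 2 => (61745673/5000000) + (-1228391/312500) * Real.pi + (0) * Real.pi ^ 2
  | 3 => (6524831/400000) + (-12980739/2500000) * Real.pi + (0) * Real.pi ^ 2
  | 4 => (1301523/2000000) + (-517859/2500000) * Real.pi + (0) * Real.pi ^ 2
  | 5 => (-76127109/10000000) + (1514501/625000) * Real.pi + (0) * Real.pi ^ 2
  | 6 => (-66991401/10000000) + (2665503/1250000) * Real.pi + (0) * Real.pi ^ 2
  | 7 => (-31650677/10000000) + (62967/62500) * Real.pi + (0) * Real.pi ^ 2
  | 8 => (-4642813/5000000) + (46183/156250) * Real.pi + (0) * Real.pi ^ 2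
  | 9 => (-63317/400000) + (125969/2500000) * Real.pi + (0) * Real.pi ^ 2
  | 10 => (85353/5000000) + (-2717/500000) * Real.pi + (0) * Real.pi ^ 2
  | 11 => (6009/312500) + (-15299/2500000) * Real.pi + (0) * Real.pi ^ 2
  | 12 => (43721/5000000) + (-3479/1250000) * Real.pi + (0) * Real.pi ^ 2
  | 13 => (0) + (-1967/2500000) * Real.pi + (0) * Real.pi ^ 2
  | _ => 0

noncomputable def eRm : ℕ → ℝ
  | 0 => (11319/10000000000)
  | 1 => (2369/2500000000)
  | 2 => (13479/10000000000)
  | 3 => (531/2500000000)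
  | 4 => (3441/5000000000)
  | 5 => (14449/10000000000)
  | 6 => (1929/5000000000)
  | 7 => (10663/10000000000)
  | 8 => (17107/10000000000)
  | 9 => (48141/10000000000)
  | 10 => (4073/5000000000)
  | 11 => (35097/10000000000)
  | 12 => (1039/2000000000)
  | 13 => (6179513/2500000000)
  | _ => 0

theorem resRm (w : ℝ) (hw : |w| ≤ 1) :
    |4 * (2 + w) * dpol am w + (5 + (-3) - 4 * Real.pi * (2 + w)) * pol am w - 27 * pol bm w
      - (2 * Real.pi ^ 2 * (2 + w) - 3 * Real.pi)| ≤ (1/400) := by
  have hs : 4 * (2 + w) * dpol am w + (5 + (-3) - 4 * Real.pi * (2 + w)) * pol am w - 27 * pol bm w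
      - (2 * Real.pi ^ 2 * (2 + w) - 3 * Real.pi)
      = ∑ k ∈ Finset.range 14, cRm k * w ^ k := by
    simp only [pol, dpol, Finset.sum_range_succ, Finset.sum_range_zero, am, bm, cRm]
    push_cast
    ring
  rw [hs]
  refine (sum_bd _ eRm ?_ w hw).trans ?_
  · intro k hk
    have h1 := Real.pi_gt_d20
    have h2 := Real.pi_lt_d20
    have h3 := pi_sq_gt
    have h4 := pi_sq_lt
    interval_cases k <;> simp only [cRm, eRm] <;> rw [abs_le] <;> constructor <;> linarith
  · simp only [Finset.sum_range_succ, Finset.sum_range_zero, eRm]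
    norm_num

noncomputable def cIm : ℕ → ℝ
  | 0 => (-168695263/10000000) + (6712171/1250000) * Real.pi + (0) * Real.pi ^ 2
  | 1 => (-27390687/5000000) + (4359363/2500000) * Real.pi + (0) * Real.pi ^ 2
  | 2 => (33145911/10000000) + (-659417/625000) * Real.pi + (0) * Real.pi ^ 2
  | 3 => (-141187361/10000000) + (5617667/1250000) * Real.pi + (0) * Real.pi ^ 2
  | 4 => (-95692021/5000000) + (15229857/2500000) * Real.pi + (0) * Real.pi ^ 2
  | 5 => (-3187927/312500) + (8117991/2500000) * Real.pi + (0) * Real.pi ^ 2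
  | 6 => (-2244183/1000000) + (1785863/2500000) * Real.pi + (0) * Real.pi ^ 2
  | 7 => (2038037/2500000) + (-648729/2500000) * Real.pi + (0) * Real.pi ^ 2
  | 8 => (8835683/10000000) + (-703123/2500000) * Real.pi + (0) * Real.pi ^ 2
  | 9 => (4307607/10000000) + (-34279/250000) * Real.pi + (0) * Real.pi ^ 2
  | 10 => (1444697/10000000) + (-22993/500000) * Real.pi + (0) * Real.pi ^ 2
  | 11 => (21971/625000) + (-6993/625000) * Real.pi + (0) * Real.pi ^ 2
  | 12 => (73309/10000000) + (-729/312500) * Real.pi + (0) * Real.pi ^ 2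
  | 13 => (0) + (-101/625000) * Real.pi + (0) * Real.pi ^ 2
  | _ => 0

noncomputable def eIm : ℕ → ℝ
  | 0 => (193/312500000)
  | 1 => (2901/10000000000)
  | 2 => (2647/10000000000)
  | 3 => (5011/5000000000)
  | 4 => (1817/1250000000)
  | 5 => (611/312500000)
  | 6 => (13677/10000000000)
  | 7 => (5261/2500000000)
  | 8 => (21207/10000000000)
  | 9 => (1199/625000000)
  | 10 => (1051/2500000000)
  | 11 => (29483/10000000000)
  | 12 => (2741/1250000000)
  | 13 => (1015363/2000000000)
  | _ => 0

theorem resIm (w : ℝ) (hw : |w| ≤ 1) :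
    |4 * (2 + w) * dpol bm w + (5 + (-3) - 4 * Real.pi * (2 + w)) * pol bm w + 27 * pol am w| ≤ (53/100000) := by
  have hs : 4 * (2 + w) * dpol bm w + (5 + (-3) - 4 * Real.pi * (2 + w)) * pol bm w + 27 * pol am w
      = ∑ k ∈ Finset.range 14, cIm k * w ^ k := by
    simp only [pol, dpol, Finset.sum_range_succ, Finset.sum_range_zero, am, bm, cIm]
    push_cast
    ring
  rw [hs]
  refine (sum_bd _ eIm ?_ w hw).trans ?_
  · intro k hk
    have h1 := Real.pi_gt_d20
    have h2 := Real.pi_lt_d20
    have h3 := pi_sq_gt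
    have h4 := pi_sq_lt
    interval_cases k <;> simp only [cIm, eIm] <;> rw [abs_le] <;> constructor <;> linarith
  · simp only [Finset.sum_range_succ, Finset.sum_range_zero, eIm]
    norm_num

theorem am_one : pol am (1) = (-5051243/10000000) := by
  simp only [pol, Finset.sum_range_succ, Finset.sum_range_zero, am]
  norm_num

theorem bm_one : pol bm (1) = (-16557089/10000000) := by
  simp only [pol, Finset.sum_range_succ, Finset.sum_range_zero, bm]
  norm_num

theorem am_neg : pol am (-1) = (-130487/2000000) := by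
  simp only [pol, Finset.sum_range_succ, Finset.sum_range_zero, am]
  norm_num

theorem bm_neg : pol bm (-1) = (-4285681/10000000) := by
  simp only [pol, Finset.sum_range_succ, Finset.sum_range_zero, bm]
  norm_num

noncomputable def ap : ℕ → ℝ
  | 0 => (-3545733/5000000)
  | 1 => (-11678511/10000000)
  | 2 => (550033/5000000)
  | 3 => (1940459/2000000)
  | 4 => (3182281/5000000)
  | 5 => (1892301/10000000)
  | 6 => (5427/2500000)
  | 7 => (-5253/200000)
  | 8 => (-27969/2000000)
  | 9 => (-51483/10000000)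
  | 10 => (-12059/10000000)
  | 11 => (-711/2500000)
  | 12 => (-67/2000000)
  | _ => 0

noncomputable def bp : ℕ → ℝ
  | 0 => (-1261427/1250000)
  | 1 => (2321993/10000000)
  | 2 => (13687591/10000000)
  | 3 => (518677/1000000)
  | 4 => (-1979259/10000000)
  | 5 => (-2722657/10000000)
  | 6 => (-1419951/10000000)
  | 7 => (-447301/10000000)
  | 8 => (-92049/10000000)
  | 9 => (-331/500000)
  | 10 => (2239/5000000)
  | 11 => (1591/10000000)
  | 12 => (941/10000000)
  | _ => 0

noncomputable def cRp : ℕ → ℝ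
  | 0 => (1911069/156250) + (5420733/625000) * Real.pi + (-4) * Real.pi ^ 2
  | 1 => (-185234887/10000000) + (3806061/312500) * Real.pi + (-2) * Real.pi ^ 2
  | 2 => (-119108821/10000000) + (9478379/2500000) * Real.pi + (0) * Real.pi ^ 2
  | 3 => (128834547/5000000) + (-1281541/156250) * Real.pi + (0) * Real.pi ^ 2
  | 4 => (281881521/10000000) + (-22431419/2500000) * Real.pi + (0) * Real.pi ^ 2
  | 5 => (127538151/10000000) + (-2537291/625000) * Real.pi + (0) * Real.pi ^ 2
  | 6 => (24324933/10000000) + (-1935717/2500000) * Real.pi + (0) * Real.pi ^ 2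
  | 7 => (-6328353/10000000) + (62949/312500) * Real.pi + (0) * Real.pi ^ 2
  | 8 => (-6815253/10000000) + (27117/125000) * Real.pi + (0) * Real.pi ^ 2
  | 9 => (-95351/312500) + (242811/2500000) * Real.pi + (0) * Real.pi ^ 2
  | 10 => (-95001/1000000) + (75601/2500000) * Real.pi + (0) * Real.pi ^ 2
  | 11 => (-44601/2000000) + (17747/2500000) * Real.pi + (0) * Real.pi ^ 2
  | 12 => (-44167/10000000) + (1757/1250000) * Real.pi + (0) * Real.pi ^ 2
  | 13 => (0) + (67/500000) * Real.pi + (0) * Real.pi ^ 2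
  | _ => 0

noncomputable def eRp : ℕ → ℝ
  | 0 => (527/10000000000)
  | 1 => (1967/2000000000)
  | 2 => (2339/10000000000)
  | 3 => (12617/10000000000)
  | 4 => (3561/10000000000)
  | 5 => (5251/10000000000)
  | 6 => (1057/2500000000)
  | 7 => (29291/10000000000)
  | 8 => (7563/10000000000)
  | 9 => (21017/10000000000)
  | 10 => (10093/5000000000)
  | 11 => (10381/10000000000)
  | 12 => (351/400000000)
  | 13 => (526217/1250000000)
  | _ => 0

theorem resRp (w : ℝ) (hw : |w| ≤ 1) :
    |4 * (2 + w) * dpol ap w + (5 + (3) - 4 * Real.pi * (2 + w)) * pol ap w - 27 * pol bp w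
      - (2 * Real.pi ^ 2 * (2 + w) - 3 * Real.pi)| ≤ (11/25000) := by
  have hs : 4 * (2 + w) * dpol ap w + (5 + (3) - 4 * Real.pi * (2 + w)) * pol ap w - 27 * pol bp w
      - (2 * Real.pi ^ 2 * (2 + w) - 3 * Real.pi)
      = ∑ k ∈ Finset.range 14, cRp k * w ^ k := by
    simp only [pol, dpol, Finset.sum_range_succ, Finset.sum_range_zero, ap, bp, cRp]
    push_cast
    ring
  rw [hs]
  refine (sum_bd _ eRp ?_ w hw).trans ?_
  · intro k hk
    have h1 := Real.pi_gt_d20
    have h2 := Real.pi_lt_d20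
    have h3 := pi_sq_gt
    have h4 := pi_sq_lt
    interval_cases k <;> simp only [cRp, eRp] <;> rw [abs_le] <;> constructor <;> linarith
  · simp only [Finset.sum_range_succ, Finset.sum_range_zero, eRp]
    norm_num

noncomputable def cIp : ℕ → ℝ
  | 0 => (-126812483/5000000) + (1261427/156250) * Real.pi + (0) * Real.pi ^ 2
  | 1 => (-2738177/400000) + (544743/250000) * Real.pi + (0) * Real.pi ^ 2
  | 2 => (186592859/5000000) + (-1187887/100000) * Real.pi + (0) * Real.pi ^ 2
  | 3 => (302361077/10000000) + (-24061131/2500000) * Real.pi + (0) * Real.pi ^ 2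
  | 4 => (7717339/5000000) + (-307063/625000) * Real.pi + (0) * Real.pi ^ 2
  | 5 => (-93299917/10000000) + (7424573/2500000) * Real.pi + (0) * Real.pi ^ 2
  | 6 => (-17475293/2500000) + (5562559/2500000) * Real.pi + (0) * Real.pi ^ 2
  | 7 => (-14542761/5000000) + (2314553/2500000) * Real.pi + (0) * Real.pi ^ 2
  | 8 => (-1586883/2000000) + (631399/2500000) * Real.pi + (0) * Real.pi ^ 2
  | 9 => (-1323081/10000000) + (105289/2500000) * Real.pi + (0) * Real.pi ^ 2
  | 10 => (29359/10000000) + (-73/78125) * Real.pi + (0) * Real.pi ^ 2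
  | 11 => (2407/250000) + (-383/125000) * Real.pi + (0) * Real.pi ^ 2
  | 12 => (43651/10000000) + (-3473/2500000) * Real.pi + (0) * Real.pi ^ 2
  | 13 => (0) + (-941/2500000) * Real.pi + (0) * Real.pi ^ 2
  | _ => 0

noncomputable def eIp : ℕ → ℝ
  | 0 => (9521/5000000000)
  | 1 => (363/5000000000)
  | 2 => (21/19531250)
  | 3 => (3137/2500000000)
  | 4 => (4081/5000000000)
  | 5 => (18973/10000000000)
  | 6 => (149/250000000)
  | 7 => (4403/5000000000)
  | 8 => (10581/5000000000)
  | 9 => (19597/10000000000)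
  | 10 => (99/250000000)
  | 11 => (21603/10000000000)
  | 12 => (1999/2500000000)
  | 13 => (2956239/2500000000)
  | _ => 0

theorem resIp (w : ℝ) (hw : |w| ≤ 1) :
    |4 * (2 + w) * dpol bp w + (5 + (3) - 4 * Real.pi * (2 + w)) * pol bp w + 27 * pol ap w| ≤ (3/2500) := by
  have hs : 4 * (2 + w) * dpol bp w + (5 + (3) - 4 * Real.pi * (2 + w)) * pol bp w + 27 * pol ap w
      = ∑ k ∈ Finset.range 14, cIp k * w ^ k := by
    simp only [pol, dpol, Finset.sum_range_succ, Finset.sum_range_zero, ap, bp, cIp]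
    push_cast
    ring
  rw [hs]
  refine (sum_bd _ eIp ?_ w hw).trans ?_
  · intro k hk
    have h1 := Real.pi_gt_d20
    have h2 := Real.pi_lt_d20
    have h3 := pi_sq_gt
    have h4 := pi_sq_lt
    interval_cases k <;> simp only [cIp, eIp] <;> rw [abs_le] <;> constructor <;> linarith
  · simp only [Finset.sum_range_succ, Finset.sum_range_zero, eIp]
    norm_num

theorem ap_one : pol ap (1) = (-158261/10000000) := by
  simp only [pol, Finset.sum_range_succ, Finset.sum_range_zero, ap]
  norm_num

theorem bp_one : pol bp (1) = (4444111/10000000) := by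
  simp only [pol, Finset.sum_range_succ, Finset.sum_range_zero, bp]
  norm_num

theorem ap_neg : pol ap (-1) = (643523/10000000) := by
  simp only [pol, Finset.sum_range_succ, Finset.sum_range_zero, ap]
  norm_num

theorem bp_neg : pol bp (-1) = (-4223441/10000000) := by
  simp only [pol, Finset.sum_range_succ, Finset.sum_range_zero, bp]
  norm_num

end Pool.Agent.W18.Xi
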