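import Mathlib
import Pool.Agent.W18.XiData

/-!
A non-real zero of the truncated cosine transform of the Xi kernel.
-/

open MeasureTheory Set Filter Topology ComplexConjugate

namespace Pool.Agent.W18.Xi

/-- First term part of the transform. -/
noncomputable def F1 (z : ℂ) : ℂ := ∫ t in (0 : ℝ)..a₀, (term 0 t : ℂ) * Complex.cos (z * t)

theorem F1_eq (z : ℂ) : F1 z = (I1 (z * Complex.I) + I1 (-z * Complex.I)) / 2 := by
  unfold F1 I1
  have h0 := term_cont 0
  rw [← intervalIntegral.integral_add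
    (Continuous.intervalIntegrable (by fun_prop) _ _)
    (Continuous.intervalIntegrable (by fun_prop) _ _), ← intervalIntegral.integral_div]
  congr 1
  ext t
  rw [Complex.cos]
  have h1 : z * Complex.I * (t : ℂ) = z * t * Complex.I := by ring
  have h2 : -z * Complex.I * (t : ℂ) = -(z * t) * Complex.I := by ring
  rw [h1, h2]
  ring

theorem I1_conj (c : ℂ) : I1 (conj c) = conj (I1 c) := by
  unfold I1
  rw [intervalIntegral.integral_of_le a₀_pos.le, intervalIntegral.integral_of_le a₀_pos.le,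
    ← integral_conj]
  congr 1
  ext t
  rw [map_mul, Complex.conj_ofReal, ← Complex.exp_conj, map_mul, Complex.conj_ofReal]

theorem F_sub_F1 (z : ℂ) (hz : |z.im| < 16 * Real.pi - 9) : ‖F a₀ z - F1 z‖ ≤
    2 * Real.pi ^ 2 * (v 1 * (100 / 99)) * (1 / (16 * Real.pi - 9 - |z.im|)) := by
  have hc := (cont_integrand a₀_pos.le z).intervalIntegrable (μ := volume)
  have h0 := term_cont 0
  have h1 : F a₀ z - F1 z =
      ∫ t in (0 : ℝ)..a₀, ((Phi t - term 0 t : ℝ) : ℂ) * Complex.cos (z * t) := by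
    unfold F F1
    rw [← intervalIntegral.integral_sub hc (Continuous.intervalIntegrable (by fun_prop) _ _)]
    congr 1
    ext t
    push_cast
    ring
  rw [h1]
  set K := 2 * Real.pi ^ 2 * (v 1 * (100 / 99)) with hK
  have hKpos : 0 < K := by
    have := v_pos 1
    have := Real.pi_pos
    positivity
  have hb : ‖∫ t in (0 : ℝ)..a₀, ((Phi t - term 0 t : ℝ) : ℂ) * Complex.cos (z * t)‖ ≤
      ∫ t in (0 : ℝ)..a₀, K * Real.exp (-(16 * Real.pi - 9 - |z.im|) * t) := by
    apply intervalIntegral.norm_integral_le_of_norm_le a₀_pos.le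
    · refine Filter.Eventually.of_forall fun t ht => ?_
      rw [norm_mul, Complex.norm_real, Real.norm_eq_abs]
      have h2 := rest_bound ht.1.le
      have h3 := norm_cos_le z t ht.1.le
      calc |Phi t - term 0 t| * ‖Complex.cos (z * t)‖
          ≤ (K * Real.exp (-(16 * Real.pi - 9) * t)) * Real.exp (|z.im| * t) := by
            apply mul_le_mul h2 h3 (norm_nonneg _) (by positivity)
        _ = K * (Real.exp (-(16 * Real.pi - 9) * t) * Real.exp (|z.im| * t)) := by ring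
        _ = _ := by
            rw [← Real.exp_add]; congr 2; ring
    · exact Continuous.intervalIntegrable (by fun_prop) _ _
  refine hb.trans ?_
  rw [intervalIntegral.integral_const_mul]
  exact mul_le_mul_of_nonneg_left (integral_exp_le (by linarith)) hKpos.le

/-! ### Numerical bounds -/

theorem E1_bd : 0.04321 < Real.exp (-Real.pi) ∧ Real.exp (-Real.pi) < 0.04322 := by
  have h3 : Real.exp (-3) = (Real.exp (-1)) ^ 3 := by
    rw [← Real.exp_nat_mul]; norm_num
  have h1l := Real.exp_neg_one_gt_d9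
  have h1u := Real.exp_neg_one_lt_d9
  have h3l : 0.049787 < Real.exp (-3) := by
    rw [h3]
    calc (0.049787 : ℝ) < 0.36787944116 ^ 3 := by norm_num
      _ < (Real.exp (-1)) ^ 3 := pow_lt_pow_left₀ h1l (by norm_num) (by norm_num)
  have h3u : Real.exp (-3) < 0.049788 := by
    rw [h3]
    calc (Real.exp (-1)) ^ 3 < 0.3678794412 ^ 3 :=
          pow_lt_pow_left₀ h1u (Real.exp_pos _).le (by norm_num)
      _ < 0.049788 := by norm_num
  have hsplit : Real.exp (-Real.pi) = Real.exp (-3) * Real.exp (-(Real.pi - 3)) := by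
    rw [← Real.exp_add]; congr 1; ring
  have hl : 0.86797 < Real.exp (-(Real.pi - 3)) := by
    have hx := Real.exp_bound (x := -0.141593) (by norm_num [abs_of_neg]) (n := 5) (by norm_num)
    have hm : Real.exp (-0.141593) ≤ Real.exp (-(Real.pi - 3)) := by
      apply Real.exp_le_exp.2
      linarith [Real.pi_lt_d6]
    refine lt_of_lt_of_le ?_ hm
    have hx2 := (abs_le.1 hx).1
    simp only [Finset.sum_range_succ, Finset.sum_range_zero, Nat.factorial] at hx2
    norm_num at hx2 ⊢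
    linarith
  have hu : Real.exp (-(Real.pi - 3)) < 0.86799 := by
    have hx := Real.exp_bound (x := -0.141592) (by norm_num [abs_of_neg]) (n := 5) (by norm_num)
    have hm : Real.exp (-(Real.pi - 3)) ≤ Real.exp (-0.141592) := by
      apply Real.exp_le_exp.2
      linarith [Real.pi_gt_d6]
    refine lt_of_le_of_lt hm ?_
    have hx2 := (abs_le.1 hx).2
    simp only [Finset.sum_range_succ, Finset.sum_range_zero, Nat.factorial] at hx2
    norm_num at hx2 ⊢
    linarith
  rw [hsplit]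
  have hp1 := Real.exp_pos (-3)
  have hp2 := Real.exp_pos (-(Real.pi - 3))
  constructor
  · calc (0.04321 : ℝ) < 0.049787 * 0.86797 := by norm_num
      _ < Real.exp (-3) * Real.exp (-(Real.pi - 3)) := by
        apply mul_lt_mul h3l hl.le (by norm_num) hp1.le
  · calc Real.exp (-3) * Real.exp (-(Real.pi - 3)) < 0.049788 * 0.86799 := by
          apply mul_lt_mul h3u hu.le hp2 (by norm_num)
      _ < 0.04322 := by norm_num

theorem E3_eq : Real.exp (-3 * Real.pi) = Real.exp (-Real.pi) ^ 3 := by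
  rw [← Real.exp_nat_mul]; congr 1; push_cast; ring

theorem E3_bd : 0.0000806 < Real.exp (-3 * Real.pi) ∧ Real.exp (-3 * Real.pi) < 0.0000808 := by
  rw [E3_eq]
  obtain ⟨h1, h2⟩ := E1_bd
  constructor
  · calc (0.0000806 : ℝ) < 0.04321 ^ 3 := by norm_num
      _ < _ := pow_lt_pow_left₀ h1 (by norm_num) (by norm_num)
  · calc Real.exp (-Real.pi) ^ 3 < 0.04322 ^ 3 :=
          pow_lt_pow_left₀ h2 (Real.exp_pos _).le (by norm_num)
      _ < 0.0000808 := by norm_num

theorem T2_sq : Real.exp (2 * a₀) ^ 2 = 3 := by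
  rw [← Real.exp_nat_mul, ← exp_four_a₀]; congr 1; push_cast; ring

theorem T2_bd : 1.732 < Real.exp (2 * a₀) ∧ Real.exp (2 * a₀) < 1.7321 := by
  have h := T2_sq
  have hp := Real.exp_pos (2 * a₀)
  constructor <;> nlinarith

theorem T5_bd : 3.948 < Real.exp (5 * a₀) ∧ Real.exp (5 * a₀) < 3.949 := by
  have h : Real.exp (5 * a₀) ^ 4 = 243 := by
    have : Real.exp (5 * a₀) ^ 4 = Real.exp (4 * a₀) ^ 5 := by
      rw [← Real.exp_nat_mul, ← Real.exp_nat_mul]; congr 1; push_cast; ring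
    rw [this, exp_four_a₀]; norm_num
  have hp := Real.exp_pos (5 * a₀)
  constructor
  · by_contra hcon
    push Not at hcon
    have := pow_le_pow_left₀ hp.le hcon 4
    rw [h] at this
    norm_num at this
  · by_contra hcon
    push Not at hcon
    have := pow_le_pow_left₀ (by norm_num) hcon 4
    rw [h] at this
    norm_num at this

theorem exp8 : Real.exp (8 * a₀) = 9 := by
  have : Real.exp (8 * a₀) = Real.exp (4 * a₀) ^ 2 := by
    rw [← Real.exp_nat_mul]; congr 1; push_cast; ring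
  rw [this, exp_four_a₀]; norm_num

theorem delta_bd : 0.0852 < 27 * a₀ - 7 * Real.pi / 3 ∧ 27 * a₀ - 7 * Real.pi / 3 < 0.0853 := by
  unfold a₀
  have h1 := Real.log_three_gt_d9
  have h2 := Real.log_three_lt_d9
  have h3 := Real.pi_gt_d6
  have h4 := Real.pi_lt_d6
  constructor <;> linarith

theorem sqrt3_bd : 1.732 < √(3 : ℝ) ∧ √(3 : ℝ) < 1.7321 := by
  have h := Real.sq_sqrt (by norm_num : (0 : ℝ) ≤ 3)
  have hp := Real.sqrt_pos.2 (by norm_num : (0 : ℝ) < 3)
  constructor <;> nlinarith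

theorem trig_bd : (0.4243 < Real.cos (27 * a₀) ∧ Real.cos (27 * a₀) < 0.4246) ∧
    (0.9053 < Real.sin (27 * a₀) ∧ Real.sin (27 * a₀) < 0.9056) := by
  obtain ⟨d1, d2⟩ := delta_bd
  obtain ⟨s1, s2⟩ := sqrt3_bd
  set δ := 27 * a₀ - 7 * Real.pi / 3 with hδ
  have he : 27 * a₀ = (δ + Real.pi / 3) + 2 * Real.pi := by rw [hδ]; ring
  rw [he, Real.cos_add_two_pi, Real.sin_add_two_pi, Real.cos_add, Real.sin_add,
    Real.cos_pi_div_three, Real.sin_pi_div_three]
  have hδ1 : |δ| ≤ 1 := abs_le.2 ⟨by linarith, by linarith⟩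
  have hδa : |δ| = δ := abs_of_pos (by linarith)
  have hc := abs_le.1 (Real.cos_bound hδ1)
  have hs := abs_le.1 (Real.sin_bound hδ1)
  rw [hδa] at hc hs
  have h2l : 0.0852 ^ 2 ≤ δ ^ 2 := by gcongr
  have h2u : δ ^ 2 ≤ 0.0853 ^ 2 := by gcongr
  have h3l : 0.0852 ^ 3 ≤ δ ^ 3 := by gcongr
  have h3u : δ ^ 3 ≤ 0.0853 ^ 3 := by gcongr
  have h4u : δ ^ 4 ≤ 0.0853 ^ 4 := by gcongr
  have h5u : δ ^ 5 ≤ 0.0853 ^ 5 := by gcongr
  have c1 : 0.99635 < Real.cos δ := by
    norm_num at h2u h4u ⊢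
    linarith [hc.1]
  have c2 : Real.cos δ < 0.99638 := by
    norm_num at h2l h4u ⊢
    linarith [hc.2]
  have n1 : 0.08509 < Real.sin δ := by
    norm_num at h3u h5u ⊢
    linarith [hs.1]
  have n2 : Real.sin δ < 0.0852 := by
    norm_num at h3l h5u ⊢
    linarith [hs.2]
  refine ⟨⟨?_, ?_⟩, ⟨?_, ?_⟩⟩ <;> nlinarith

theorem exp_split (cr ci : ℝ) : Complex.exp ((5 + (⟨cr, ci⟩ : ℂ)) * a₀) =
    (Real.exp ((5 + cr) * a₀) : ℂ) * ⟨Real.cos (ci * a₀), Real.sin (ci * a₀)⟩ := by
  have hre : ((5 + (⟨cr, ci⟩ : ℂ)) * a₀).re = (5 + cr) * a₀ := by simp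
  have him : ((5 + (⟨cr, ci⟩ : ℂ)) * a₀).im = ci * a₀ := by simp
  apply Complex.ext
  · rw [Complex.exp_re, hre, him, Complex.re_ofReal_mul]
  · rw [Complex.exp_im, hre, him, Complex.im_ofReal_mul]


/-- The approximate value of `I1 c`. -/
noncomputable def V (a b : ℕ → ℝ) (cr : ℝ) : ℂ :=
  ⟨Real.exp (-3 * Real.pi) * (Real.exp ((5 + cr) * a₀) *
      (Real.cos (27 * a₀) * pol a 1 - Real.sin (27 * a₀) * pol b 1))
      - Real.exp (-Real.pi) * pol a (-1),
   Real.exp (-3 * Real.pi) * (Real.exp ((5 + cr) * a₀) *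
      (Real.cos (27 * a₀) * pol b 1 + Real.sin (27 * a₀) * pol a 1))
      - Real.exp (-Real.pi) * pol b (-1)⟩

theorem V_eq (a b : ℕ → ℝ) (cr : ℝ) : ((Real.exp (-3 * Real.pi) : ℂ) *
        Complex.exp ((5 + (⟨cr, 27⟩ : ℂ)) * a₀) * (⟨pol a 1, pol b 1⟩ : ℂ)
      - (Real.exp (-Real.pi) : ℂ) * (⟨pol a (-1), pol b (-1)⟩ : ℂ)) = V a b cr := by
  rw [exp_split]
  unfold V
  apply Complex.ext
  · simp only [Complex.sub_re, Complex.mul_re, Complex.ofReal_re, Complex.ofReal_im,
      Complex.mul_im]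
    ring
  · simp only [Complex.sub_im, Complex.mul_re, Complex.ofReal_re, Complex.ofReal_im,
      Complex.mul_im]
    ring

theorem err0 : ‖I1 ⟨0, 27⟩ - V a0 b0 0‖ ≤ 0.0000194 := by
  have h := est a0 b0 0 27 (27/20000) (203/100000) (by linarith [Real.pi_gt_three])
    (fun w hw => by simpa using resR0 w hw) (fun w hw => by simpa using resI0 w hw)
  rw [V_eq] at h
  refine h.trans ?_
  obtain ⟨h1, h2⟩ := E1_bd
  have hpi := Real.pi_gt_d4
  have h3 : Real.exp (-Real.pi) / (4 * Real.pi - 5 - 0) ≤ 0.00572 := by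
    rw [div_le_iff₀ (by linarith)]
    nlinarith
  nlinarith

theorem errm : ‖I1 ⟨-3, 27⟩ - V am bm (-3)‖ ≤ 0.0000125 := by
  have h := est am bm (-3) 27 (1/400) (53/100000) (by linarith [Real.pi_gt_three])
    (fun w hw => by simpa using resRm w hw) (fun w hw => by simpa using resIm w hw)
  rw [V_eq] at h
  refine h.trans ?_
  obtain ⟨h1, h2⟩ := E1_bd
  have hpi := Real.pi_gt_d4
  have h3 : Real.exp (-Real.pi) / (4 * Real.pi - 5 - (-3)) ≤ 0.0041 := by
    rw [div_le_iff₀ (by linarith)]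
    nlinarith
  nlinarith

theorem errp : ‖I1 ⟨3, 27⟩ - V ap bp 3‖ ≤ 0.0000157 := by
  have h := est ap bp 3 27 (11/25000) (3/2500) (by linarith [Real.pi_gt_three])
    (fun w hw => by simpa using resRp w hw) (fun w hw => by simpa using resIp w hw)
  rw [V_eq] at h
  refine h.trans ?_
  obtain ⟨h1, h2⟩ := E1_bd
  have hpi := Real.pi_gt_d4
  have h3 : Real.exp (-Real.pi) / (4 * Real.pi - 5 - 3) ≤ 0.0095 := by
    rw [div_le_iff₀ (by linarith)]
    nlinarith
  nlinarith

/-- Lower bound at the real point. -/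
theorem low0 : 0.00023 ≤ (V a0 b0 0).re := by
  unfold V
  simp only
  rw [a0_one, b0_one, a0_neg, show (5 + (0 : ℝ)) * a₀ = 5 * a₀ by ring]
  obtain ⟨h1, h2⟩ := E1_bd
  obtain ⟨h3, h4⟩ := E3_bd
  obtain ⟨h5, h6⟩ := T5_bd
  obtain ⟨⟨h7, h8⟩, ⟨h9, h10⟩⟩ := trig_bd
  set C := Real.cos (27 * a₀)
  set S := Real.sin (27 * a₀)
  set T := Real.exp (5 * a₀)
  set E1 := Real.exp (-Real.pi)
  set E3 := Real.exp (-3 * Real.pi)
  have hu : 1.303 ≤ C * (941007/1250000) - S * (-10864897/10000000) := by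
    norm_num at h7 h9 ⊢
    linarith
  have hT : 5.144 ≤ T * (C * (941007/1250000) - S * (-10864897/10000000)) := by
    calc (5.144 : ℝ) ≤ 3.948 * 1.303 := by norm_num
      _ ≤ _ := mul_le_mul h5.le hu (by norm_num) (by linarith)
  have hE : 0.0004146 ≤ E3 * (T * (C * (941007/1250000) - S * (-10864897/10000000))) := by
    calc (0.0004146 : ℝ) ≤ 0.0000806 * 5.144 := by norm_num
      _ ≤ _ := mul_le_mul h3.le hT (by norm_num) (by linarith)
  norm_num at hE h2 ⊢
  linarith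

/-- Upper bounds at the complex point. -/
theorem up_bd : |(V am bm (-3)).re + (V ap bp 3).re| ≤ 0.0000800 ∧
    |(V am bm (-3)).im - (V ap bp 3).im| ≤ 0.0000210 := by
  unfold V
  simp only
  rw [am_one, bm_one, am_neg, bm_neg, ap_one, bp_one, ap_neg, bp_neg,
    show (5 + (-3 : ℝ)) * a₀ = 2 * a₀ by ring, show (5 + (3 : ℝ)) * a₀ = 8 * a₀ by ring, exp8]
  obtain ⟨h1, h2⟩ := E1_bd
  obtain ⟨h3, h4⟩ := E3_bd
  obtain ⟨h5, h6⟩ := T2_bd
  obtain ⟨⟨h7, h8⟩, ⟨h9, h10⟩⟩ := trig_bd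
  set C := Real.cos (27 * a₀)
  set S := Real.sin (27 * a₀)
  set T := Real.exp (2 * a₀)
  set E1 := Real.exp (-Real.pi)
  set E3 := Real.exp (-3 * Real.pi)
  constructor
  · have e : E3 * (T * (C * (-5051243/10000000) - S * (-16557089/10000000))) -
          E1 * (-130487/2000000) +
        (E3 * (9 * (C * (-158261/10000000) - S * (4444111/10000000))) -
          E1 * (643523/10000000)) =
        E1 * (8912/10000000) - E3 * (9 * (C * (158261/10000000) + S * (4444111/10000000)) -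
          T * (C * (-5051243/10000000) - S * (-16557089/10000000))) := by ring
    rw [e]
    have hu1 : 1.2844 ≤ C * (-5051243/10000000) - S * (-16557089/10000000) := by
      norm_num at h7 h8 h9 h10 ⊢
      linarith
    have hu2 : C * (-5051243/10000000) - S * (-16557089/10000000) ≤ 1.2852 := by
      norm_num at h7 h8 h9 h10 ⊢
      linarith
    have hT1 : 2.2245 ≤ T * (C * (-5051243/10000000) - S * (-16557089/10000000)) := by
      calc (2.2245 : ℝ) ≤ 1.732 * 1.2844 := by norm_num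
        _ ≤ _ := mul_le_mul h5.le hu1 (by norm_num) (by linarith)
    have hT2 : T * (C * (-5051243/10000000) - S * (-16557089/10000000)) ≤ 2.2262 := by
      calc T * (C * (-5051243/10000000) - S * (-16557089/10000000)) ≤ 1.7321 * 1.2852 :=
            mul_le_mul h6.le hu2 (by linarith) (by norm_num)
        _ ≤ _ := by norm_num
    set X := T * (C * (-5051243/10000000) - S * (-16557089/10000000))
    have hD1 : 1.455 ≤ 9 * (C * (158261/10000000) + S * (4444111/10000000)) - X := by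
      norm_num at h7 h8 h9 h10 hT1 hT2 ⊢
      linarith
    have hD2 : 9 * (C * (158261/10000000) + S * (4444111/10000000)) - X ≤ 1.4585 := by
      norm_num at h7 h8 h9 h10 hT1 hT2 ⊢
      linarith
    set D := 9 * (C * (158261/10000000) + S * (4444111/10000000)) - X
    have hE1 : 0.000117 ≤ E3 * D := by
      calc (0.000117 : ℝ) ≤ 0.0000806 * 1.455 := by norm_num
        _ ≤ _ := mul_le_mul h3.le hD1 (by norm_num) (by linarith)
    have hE2 : E3 * D ≤ 0.000118 := by
      calc E3 * D ≤ 0.0000808 * 1.4585 := mul_le_mul h4.le hD2 (by linarith) (by norm_num)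
        _ ≤ _ := by norm_num
    rw [abs_le]
    norm_num at h1 h2 hE1 hE2 ⊢
    constructor <;> linarith
  · have e : E3 * (T * (C * (-16557089/10000000) + S * (-5051243/10000000))) -
          E1 * (-4285681/10000000) -
        (E3 * (9 * (C * (4444111/10000000) + S * (-158261/10000000))) -
          E1 * (-4223441/10000000)) =
        E1 * (62240/10000000) - E3 * (9 * (C * (4444111/10000000) + S * (-158261/10000000)) +
          T * (C * (16557089/10000000) + S * (5051243/10000000))) := by ring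
    rw [e]
    have hu1 : 1.1597 ≤ C * (16557089/10000000) + S * (5051243/10000000) := by
      norm_num at h7 h8 h9 h10 ⊢
      linarith
    have hu2 : C * (16557089/10000000) + S * (5051243/10000000) ≤ 1.1605 := by
      norm_num at h7 h8 h9 h10 ⊢
      linarith
    have hT1 : 2.0085 ≤ T * (C * (16557089/10000000) + S * (5051243/10000000)) := by
      calc (2.0085 : ℝ) ≤ 1.732 * 1.1597 := by norm_num
        _ ≤ _ := mul_le_mul h5.le hu1 (by norm_num) (by linarith)
    have hT2 : T * (C * (16557089/10000000) + S * (5051243/10000000)) ≤ 2.0102 := by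
      calc T * (C * (16557089/10000000) + S * (5051243/10000000)) ≤ 1.7321 * 1.1605 :=
            mul_le_mul h6.le hu2 (by linarith) (by norm_num)
        _ ≤ _ := by norm_num
    set X := T * (C * (16557089/10000000) + S * (5051243/10000000))
    have hD1 : 3.576 ≤ 9 * (C * (4444111/10000000) + S * (-158261/10000000)) + X := by
      norm_num at h7 h8 h9 h10 hT1 hT2 ⊢
      linarith
    have hD2 : 9 * (C * (4444111/10000000) + S * (-158261/10000000)) + X ≤ 3.580 := by
      norm_num at h7 h8 h9 h10 hT1 hT2 ⊢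
      linarith
    set D := 9 * (C * (4444111/10000000) + S * (-158261/10000000)) + X
    have hE1 : 0.000288 ≤ E3 * D := by
      calc (0.000288 : ℝ) ≤ 0.0000806 * 3.576 := by norm_num
        _ ≤ _ := mul_le_mul h3.le hD1 (by norm_num) (by linarith)
    have hE2 : E3 * D ≤ 0.0002895 := by
      calc E3 * D ≤ 0.0000808 * 3.580 := mul_le_mul h4.le hD2 (by linarith) (by norm_num)
        _ ≤ _ := by norm_num
    rw [abs_le]
    norm_num at h1 h2 hE1 hE2 ⊢
    constructor <;> linarith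

theorem K_bd : 2 * Real.pi ^ 2 * (v 1 * (100 / 99)) ≤ 0.001115 := by
  have hv : v 1 = 16 * Real.exp (-Real.pi) ^ 4 := by
    unfold v
    rw [show (((1 : ℕ) : ℝ) + 1) = 2 by norm_num,
      show -Real.pi * 2 ^ 2 = ((4 : ℕ) : ℝ) * (-Real.pi) by push_cast; ring, Real.exp_nat_mul]
    norm_num
  rw [hv]
  obtain ⟨h1, h2⟩ := E1_bd
  have h3 : Real.exp (-Real.pi) ^ 4 ≤ 0.04322 ^ 4 := pow_le_pow_left₀ (Real.exp_pos _).le h2.le 4
  have h4 := pi_sq_lt
  have h5 : 2 * Real.pi ^ 2 ≤ 19.7393 := by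
    norm_num at h4 ⊢
    linarith
  calc 2 * Real.pi ^ 2 * (16 * Real.exp (-Real.pi) ^ 4 * (100 / 99))
      ≤ 19.7393 * (16 * 0.04322 ^ 4 * (100 / 99)) := by gcongr
    _ ≤ 0.001115 := by norm_num

theorem key : ‖F a₀ ⟨27, 3⟩‖ < ‖F a₀ 27‖ := by
  have hpi := Real.pi_gt_d4
  have hK := K_bd
  have hKn : 0 ≤ 2 * Real.pi ^ 2 * (v 1 * (100 / 99)) := by
    have := v_pos 1
    positivity
  -- real point
  have hr1 := F_sub_F1 27 (by norm_num; linarith)
  have hr2 : 2 * Real.pi ^ 2 * (v 1 * (100 / 99)) * (1 / (16 * Real.pi - 9 - |(27 : ℂ).im|)) ≤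
      0.0000272 := by
    have : (27 : ℂ).im = 0 := by norm_num
    rw [this, abs_zero, mul_one_div, div_le_iff₀ (by linarith)]
    norm_num at hpi hK ⊢
    linarith
  have hr3 : F1 27 = (((I1 ⟨0, 27⟩).re : ℝ) : ℂ) := by
    rw [F1_eq]
    have e1 : (27 : ℂ) * Complex.I = ⟨0, 27⟩ := by
      apply Complex.ext <;> simp
    have e2 : -(27 : ℂ) * Complex.I = conj (⟨0, 27⟩ : ℂ) := by
      apply Complex.ext <;> simp
    rw [e1, e2, I1_conj, Complex.add_conj]
    push_cast
    ring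
  have hr4 : 0.00021 ≤ (I1 ⟨0, 27⟩).re := by
    have h1 := Complex.abs_re_le_norm (I1 ⟨0, 27⟩ - V a0 b0 0)
    have h2 := err0
    have h3 := low0
    rw [Complex.sub_re] at h1
    have h4 := (abs_le.1 (h1.trans h2)).1
    norm_num at h3 h4 ⊢
    linarith
  have hr5 : 0.00018 ≤ ‖F a₀ 27‖ := by
    have h1 : ‖F1 27‖ = (I1 ⟨0, 27⟩).re := by
      rw [hr3, Complex.norm_real, Real.norm_of_nonneg (by linarith)]
    have h2 : ‖F1 27‖ - ‖F a₀ 27‖ ≤ ‖F a₀ 27 - F1 27‖ := by
      rw [norm_sub_rev]; exact norm_sub_norm_le _ _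
    have h3 := hr1.trans hr2
    linarith
  -- complex point
  have hc1 := F_sub_F1 ⟨27, 3⟩ (by
    show |(3 : ℝ)| < _
    rw [abs_of_pos (by norm_num)]; linarith)
  have hc2 : 2 * Real.pi ^ 2 * (v 1 * (100 / 99)) *
      (1 / (16 * Real.pi - 9 - |(⟨27, 3⟩ : ℂ).im|)) ≤ 0.0000295 := by
    have : (⟨27, 3⟩ : ℂ).im = 3 := rfl
    rw [this, abs_of_pos (by norm_num : (0 : ℝ) < 3), mul_one_div, div_le_iff₀ (by linarith)]
    norm_num at hpi hK ⊢
    linarith
  have hc3 : F1 ⟨27, 3⟩ = (I1 ⟨-3, 27⟩ + conj (I1 ⟨3, 27⟩)) / 2 := by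
    rw [F1_eq]
    have e1 : (⟨27, 3⟩ : ℂ) * Complex.I = ⟨-3, 27⟩ := by
      apply Complex.ext <;> simp
    have e2 : -(⟨27, 3⟩ : ℂ) * Complex.I = conj (⟨3, 27⟩ : ℂ) := by
      apply Complex.ext <;> simp
    rw [e1, e2, I1_conj]
  have hc4 : ‖F1 ⟨27, 3⟩‖ ≤ 0.0000650 := by
    rw [hc3, norm_div]
    have e2 : ‖(2 : ℂ)‖ = 2 := by simp
    rw [e2, div_le_iff₀ (by norm_num)]
    have e3 : I1 ⟨-3, 27⟩ + conj (I1 ⟨3, 27⟩) =
        (I1 ⟨-3, 27⟩ - V am bm (-3)) + conj (I1 ⟨3, 27⟩ - V ap bp 3) +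
          (V am bm (-3) + conj (V ap bp 3)) := by
      rw [map_sub]; ring
    rw [e3]
    have h1 := errm
    have h2 := errp
    have h3 : ‖V am bm (-3) + conj (V ap bp 3)‖ ≤ 0.000101 := by
      refine (Complex.norm_le_abs_re_add_abs_im _).trans ?_
      obtain ⟨h4, h5⟩ := up_bd
      rw [Complex.add_re, Complex.add_im, Complex.conj_re, Complex.conj_im, ← sub_eq_add_neg]
      norm_num at h4 h5 ⊢
      linarith
    refine (norm_add_le _ _).trans ?_
    have h6 := norm_add_le (I1 ⟨-3, 27⟩ - V am bm (-3)) (conj (I1 ⟨3, 27⟩ - V ap bp 3))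
    rw [Complex.norm_conj] at h6
    linarith
  have hc5 : ‖F a₀ ⟨27, 3⟩‖ ≤ 0.000095 := by
    have h1 : ‖F a₀ ⟨27, 3⟩‖ ≤ ‖F a₀ ⟨27, 3⟩ - F1 ⟨27, 3⟩‖ + ‖F1 ⟨27, 3⟩‖ := by
      simpa using norm_add_le (F a₀ ⟨27, 3⟩ - F1 ⟨27, 3⟩) (F1 ⟨27, 3⟩)
    have h3 := hc1.trans hc2
    linarith
  refine lt_of_le_of_lt hc5 (lt_of_lt_of_le ?_ hr5)
  norm_num

/-- `F_a` has a non-real zero for `a = (log 3) / 4`. -/
theorem main : ∃ w : ℂ, F (Real.log 3 / 4) w = 0 ∧ w.im ≠ 0 := by
  have h := key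
  apply exists_nonreal a₀_pos (z := ⟨27, 3⟩)
  simpa using h

end Pool.Agent.W18.Xi
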